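import Pool.Agent.V1191.GR.Main

/-!
# The Gaussian system has no atoms
-/

set_option autoImplicit false

open Filter Topology MeasureTheory ProbabilityTheory

noncomputable section

namespace Pool.Agent.V1191.GR

/-- A finite measure on the line without point masses takes intermediate values on half-lines. -/
theorem exists_Iic {ν : Measure ℝ} [IsFiniteMeasure ν] (h0 : ∀ x, ν {x} = 0) (hu : 0 < ν Set.univ) :
    ∃ t : ℝ, 0 < ν (Set.Iic t) ∧ ν (Set.Iic t) < ν Set.univ := by
  by_contra hc
  push Not at hc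
  have hd : ∀ t, ν (Set.Iic t) = 0 ∨ ν (Set.Iic t) = ν Set.univ := by
    intro t
    rcases eq_or_ne (ν (Set.Iic t)) 0 with h | h
    · exact Or.inl h
    · exact Or.inr (le_antisymm (measure_mono (Set.subset_univ _)) (hc t (pos_iff_ne_zero.mpr h)))
  set S : Set ℝ := {t | ν (Set.Iic t) = 0} with hS
  have hbot := tendsto_measure_Ici_atBot ν
  have htop := tendsto_measure_Iic_atTop ν
  have hne : S.Nonempty := by
    obtain ⟨t, ht⟩ := (hbot.eventually (lt_mem_nhds hu)).exists
    refine ⟨t - 1, (hd (t - 1)).resolve_right fun h => ?_⟩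
    have h1 : ν (Set.Ioi (t - 1)) = 0 := by
      rw [← Set.compl_Iic, measure_compl measurableSet_Iic (measure_ne_top _ _), h, tsub_self]
    have h2 : ν (Set.Ici t) ≤ ν (Set.Ioi (t - 1)) :=
      measure_mono fun x hx => by
        rw [Set.mem_Ici] at hx
        rw [Set.mem_Ioi]
        linarith
    rw [h1] at h2
    exact absurd ht (not_lt.mpr h2)
  have hbdd : BddAbove S := by
    obtain ⟨t, ht⟩ := (htop.eventually (lt_mem_nhds hu)).exists
    refine ⟨t, fun s hs => ?_⟩
    by_contra hlt
    rw [not_le] at hlt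
    have h1 : ν (Set.Iic t) ≤ ν (Set.Iic s) := measure_mono (Set.Iic_subset_Iic.mpr hlt.le)
    have h2 : ν (Set.Iic s) = 0 := hs
    rw [h2] at h1
    exact absurd ht (not_lt.mpr h1)
  set t0 := sSup S with ht0
  have h1 : ν (Set.Iio t0) = 0 := by
    have e : Set.Iio t0 ⊆ ⋃ n : ℕ, Set.Iic (t0 - 1 / ((n : ℝ) + 1)) := by
      intro x hx
      obtain ⟨n, hn⟩ := exists_nat_one_div_lt (sub_pos.mpr (Set.mem_Iio.mp hx))
      rw [Set.mem_iUnion]
      exact ⟨n, by rw [Set.mem_Iic]; linarith⟩
    refine measure_mono_null e (measure_iUnion_null fun n => ?_)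
    have hlt : t0 - 1 / ((n : ℝ) + 1) < t0 := by
      have : (0 : ℝ) < 1 / ((n : ℝ) + 1) := by positivity
      linarith
    obtain ⟨s, hs, hs'⟩ := exists_lt_of_lt_csSup hne hlt
    exact measure_mono_null (Set.Iic_subset_Iic.mpr hs'.le) hs
  have h2 : ν (Set.Ioi t0) = 0 := by
    have e : Set.Ioi t0 ⊆ ⋃ n : ℕ, Set.Ioi (t0 + 1 / ((n : ℝ) + 1)) := by
      intro x hx
      obtain ⟨n, hn⟩ := exists_nat_one_div_lt (sub_pos.mpr (Set.mem_Ioi.mp hx))
      rw [Set.mem_iUnion]
      exact ⟨n, by rw [Set.mem_Ioi]; linarith⟩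
    refine measure_mono_null e (measure_iUnion_null fun n => ?_)
    have hpos : (0 : ℝ) < 1 / ((n : ℝ) + 1) := by positivity
    have hnot : t0 + 1 / ((n : ℝ) + 1) ∉ S := by
      intro hmem
      have := le_csSup hbdd hmem
      linarith
    have h3 := (hd _).resolve_left hnot
    rw [← Set.compl_Iic, measure_compl measurableSet_Iic (measure_ne_top _ _), h3, tsub_self]
  have h3 : ν Set.univ = 0 := by
    have e : (Set.univ : Set ℝ) = (Set.Iio t0 ∪ {t0}) ∪ Set.Ioi t0 := by
      ext x
      simp only [Set.mem_univ, Set.mem_union, Set.mem_Iio, Set.mem_singleton_iff, Set.mem_Ioi,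
        true_iff]
      rcases lt_trichotomy x t0 with h | h | h <;> tauto
    rw [e]
    exact measure_union_null (measure_union_null h1 (h0 t0)) h2
  exact hu.ne' h3

theorem nonatomic {μ : Measure (ℤ → ℝ)} [IsProbabilityMeasure μ] (hμ : IsG μ r) {A : Set (ℤ → ℝ)}
    (hA : MeasurableSet A) (h : 0 < μ A) :
    ∃ B, B ⊆ A ∧ MeasurableSet B ∧ 0 < μ B ∧ μ B < μ A := by
  set X : (ℤ → ℝ) → ℝ := fun ω => ω 0 with hX
  have hXm : Measurable X := measurable_pi_apply 0
  have hlaw : μ.map X = gaussianReal 0 1 := by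
    have h1 := law_L hμ (Finsupp.single 0 1)
    have h2 : L (Finsupp.single 0 1) = X := by
      funext ω
      rw [L_single, one_mul]
    have h3 : B r (Finsupp.single 0 1) (Finsupp.single 0 1) = 1 := by
      unfold B
      rw [Finsupp.sum_single_index, Finsupp.sum_single_index]
      · simp [r_zero]
      · simp
      · simp
    rw [h2, h3] at h1
    rw [h1]
    simp
  set ν : Measure ℝ := (μ.restrict A).map X with hν
  have h0 : ∀ x, ν {x} = 0 := by
    intro x
    rw [hν, Measure.map_apply hXm (measurableSet_singleton x)]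
    apply le_antisymm _ (zero_le)
    calc (μ.restrict A) (X ⁻¹' {x}) ≤ μ (X ⁻¹' {x}) := Measure.restrict_apply_le _ _
      _ = gaussianReal 0 1 {x} := by
        rw [← hlaw, Measure.map_apply hXm (measurableSet_singleton x)]
      _ = 0 := by
        haveI := nullSingletonClass_gaussianReal (μ := 0) (v := 1) one_ne_zero
        exact measure_singleton x
  have hu : ν Set.univ = μ A := by
    rw [hν, Measure.map_apply hXm MeasurableSet.univ]
    simp
  obtain ⟨t, ht1, ht2⟩ := exists_Iic h0 (by rwa [hu])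
  have e : ν (Set.Iic t) = μ (A ∩ X ⁻¹' Set.Iic t) := by
    rw [hν, Measure.map_apply hXm measurableSet_Iic, Measure.restrict_apply (hXm measurableSet_Iic),
      Set.inter_comm]
  rw [e] at ht1 ht2
  rw [hu] at ht2
  exact ⟨A ∩ X ⁻¹' Set.Iic t, Set.inter_subset_left, hA.inter (hXm measurableSet_Iic), ht1, ht2⟩

end Pool.Agent.V1191.GR
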