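import Pool.Agent.W761.Gauss.Space

/-!
# Density of exponentials in the square integrable functions (copied from the Gaussian library)
-/

set_option autoImplicit false

open Filter Topology MeasureTheory ProbabilityTheory
open scoped NNReal ENNReal

noncomputable section

namespace Pool.Agent.V1191.GR

open Pool.Agent.W761.Gauss

/-- The exponential `e^{it}`. -/
def ex (t : ℝ) : ℂ := Complex.exp ((t : ℂ) * Complex.I)

theorem ex_add (a b : ℝ) : ex (a + b) = ex a * ex b := by
  rw [ex, ex, ex, ← Complex.exp_add]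
  congr 1
  push_cast
  ring

theorem ex_sum {ι : Type*} (s : Finset ι) (f : ι → ℝ) : ex (∑ i ∈ s, f i) = ∏ i ∈ s, ex (f i) := by
  rw [ex, Complex.ofReal_sum, Finset.sum_mul, Complex.exp_sum]
  rfl

theorem norm_ex (t : ℝ) : ‖ex t‖ = 1 := Complex.norm_exp_ofReal_mul_I t

theorem cont_ex : Continuous ex := by
  unfold ex
  fun_prop

theorem meas_ex : Measurable ex := cont_ex.measurable

/-- The shift on sequences indexed by `ℤ`. -/
def shift : Equiv.Perm (ℤ → ℝ) where
  toFun ω n := ω (n + 1)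
  invFun ω n := ω (n - 1)
  left_inv ω := by
    funext n
    simp
  right_inv ω := by
    funext n
    simp

theorem shift_zpow (k : ℤ) (ω : ℤ → ℝ) (l : ℤ) : (shift ^ k) ω l = ω (l + k) := by
  have hnat : ∀ (k : ℕ) (ω : ℤ → ℝ) (l : ℤ), (shift ^ k) ω l = ω (l + k) := by
    intro k
    induction k with
    | zero => intro ω l; simp
    | succ k ih =>
      intro ω l
      rw [pow_succ, Equiv.Perm.mul_apply, ih]
      show ω (l + k + 1) = _
      push_cast
      exact congrArg ω (by ring)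
  cases k with
  | ofNat k => exact hnat k ω l
  | negSucc k =>
    rw [zpow_negSucc]
    have h1 := hnat (k + 1) ((shift ^ (k + 1))⁻¹ ω) (l + Int.negSucc k)
    have h2 : (shift ^ (k + 1)) ((shift ^ (k + 1))⁻¹ ω) = ω :=
      Equiv.apply_symm_apply _ _
    rw [h2] at h1
    rw [h1]
    apply congrArg
    rw [Int.negSucc_eq]
    push_cast
    ring

variable {X : Type*} [MeasurableSpace X] {μ : Measure X} {H : Submodule ℝ (X → ℝ)}

/-- The σ-algebra generated by the elements of `H`. -/
@[reducible] def sig (H : Submodule ℝ (X → ℝ)) : MeasurableSpace X :=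
  ⨆ h : H, MeasurableSpace.comap (h : X → ℝ) inferInstance

omit [MeasurableSpace X] in
theorem sig_eq : sig H = MeasurableSpace.comap (fun x (h : H) => (h : X → ℝ) x)
    MeasurableSpace.pi := by
  rw [MeasurableSpace.pi, MeasurableSpace.comap_iSup, sig]
  simp only [MeasurableSpace.comap_comp]
  rfl

theorem meas_exh (hH : GaussSpace μ H) {h : X → ℝ} (hh : h ∈ H) : Measurable fun x => ex (h x) :=
  meas_ex.comp (hH.meas h hh)

/-- A real integrable function orthogonal to all the exponentials vanishes. -/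
theorem real_zero (hH : GaussSpace μ H)
    (hgen : ∀ A, MeasurableSet A → ∃ B, MeasurableSet[sig H] B ∧ A =ᵐ[μ] B)
    {g : X → ℝ} (hg : Integrable g μ) (hgm : Measurable g)
    (h0 : ∀ h ∈ H, ∫ x, ex (h x) * (g x : ℂ) ∂μ = 0) : g =ᵐ[μ] 0 := by
  set νp : Measure X := μ.withDensity (fun x => ENNReal.ofReal (g x)) with hνp
  set νn : Measure X := μ.withDensity (fun x => ENNReal.ofReal (-g x)) with hνn
  have hfp : IsFiniteMeasure νp := isFiniteMeasure_withDensity_ofReal hg.2
  have hfn : IsFiniteMeasure νn := isFiniteMeasure_withDensity_ofReal hg.neg.2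
  have hΦ : Measurable fun x (h : H) => (h : X → ℝ) x :=
    measurable_pi_lambda _ fun h => hH.meas _ h.2
  have hint : ∀ h ∈ H, ∫ x, ex (h x) ∂νp = ∫ x, ex (h x) ∂νn := by
    intro h hh
    have e1 : ∫ x, ex (h x) ∂νp = ∫ x, (max (g x) 0) • ex (h x) ∂μ := by
      rw [hνp, integral_withDensity_eq_integral_toReal_smul]
      · apply integral_congr_ae
        refine Eventually.of_forall fun x => ?_
        simp only [ENNReal.toReal_ofReal']
      · exact hgm.ennreal_ofReal
      · exact Eventually.of_forall fun x => ENNReal.ofReal_lt_top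
    have e2 : ∫ x, ex (h x) ∂νn = ∫ x, (max (-g x) 0) • ex (h x) ∂μ := by
      rw [hνn, integral_withDensity_eq_integral_toReal_smul]
      · apply integral_congr_ae
        refine Eventually.of_forall fun x => ?_
        simp only [ENNReal.toReal_ofReal']
      · exact hgm.neg.ennreal_ofReal
      · exact Eventually.of_forall fun x => ENNReal.ofReal_lt_top
    rw [e1, e2, ← sub_eq_zero, ← integral_sub, ← h0 h hh]
    · apply integral_congr_ae
      refine Eventually.of_forall fun x => ?_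
      simp only [← sub_smul]
      rw [Complex.real_smul, mul_comm]
      congr 2
      rcases le_total (g x) 0 with h1 | h1
      · rw [max_eq_right h1, max_eq_left (by linarith)]
        ring
      · rw [max_eq_left h1, max_eq_right (by linarith)]
        ring
    · refine (hg.pos_part.smul_bdd (C := 1) ?_ ?_)
      · exact (meas_exh hH hh).aestronglyMeasurable
      · exact Eventually.of_forall fun x => (norm_ex _).le
    · refine (hg.neg_part.smul_bdd (C := 1) ?_ ?_)
      · exact (meas_exh hH hh).aestronglyMeasurable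
      · exact Eventually.of_forall fun x => (norm_ex _).le
  have hmap : νp.map (fun x (h : H) => (h : X → ℝ) x) = νn.map (fun x (h : H) => (h : X → ℝ) x) := by
    apply ext_of_finite_char
    intro s t
    have hc : ∀ ν : Measure (H → ℝ), AEStronglyMeasurable (fun ω : H → ℝ =>
        Complex.exp ((∑ i ∈ s, t i * ω i : ℝ) * Complex.I)) ν := by
      intro ν
      have : Measurable fun ω : H → ℝ => ex (∑ i ∈ s, t i * ω i) := by
        apply meas_ex.comp
        exact Finset.measurable_fun_sum _ fun i _ => (measurable_pi_apply i).const_mul _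
      exact this.aestronglyMeasurable
    rw [integral_map hΦ.aemeasurable (hc _), integral_map hΦ.aemeasurable (hc _)]
    have h1 := hint (∑ i ∈ s, t i • (i : X → ℝ)) (H.sum_mem fun i _ => H.smul_mem _ i.2)
    have h2 : ∀ x, (∑ i ∈ s, t i • (i : X → ℝ)) x = ∑ i ∈ s, t i * (i : X → ℝ) x := by
      intro x
      simp
    simp only [h2] at h1
    exact h1
  have hset : ∀ A, MeasurableSet A → μ A < ⊤ → ∫ x in A, g x ∂μ = 0 := by
    intro A hA _
    obtain ⟨B, hB, hAB⟩ := hgen A hA
    rw [sig_eq] at hB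
    obtain ⟨U, hU, rfl⟩ := hB
    have hBm : MeasurableSet ((fun x (h : H) => (h : X → ℝ) x) ⁻¹' U) := hΦ hU
    rw [setIntegral_congr_set hAB]
    have h3 : νp ((fun x (h : H) => (h : X → ℝ) x) ⁻¹' U) =
        νn ((fun x (h : H) => (h : X → ℝ) x) ⁻¹' U) := by
      rw [← Measure.map_apply hΦ hU, ← Measure.map_apply hΦ hU, hmap]
    rw [hνp, hνn, withDensity_apply _ hBm, withDensity_apply _ hBm] at h3
    rw [integral_eq_lintegral_pos_part_sub_lintegral_neg_part hg.integrableOn, h3, sub_self]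
  exact hg.ae_eq_zero_of_forall_setIntegral_eq_zero hset

/-- The space of exponential polynomials. -/
def EP (H : Submodule ℝ (X → ℝ)) : Submodule ℂ (X → ℂ) :=
  Submodule.span ℂ {g | ∃ h ∈ H, g = fun x => ex (h x)}

theorem memLp_ex [IsProbabilityMeasure μ] (hH : GaussSpace μ H) {h : X → ℝ} (hh : h ∈ H)
    (p : ℝ≥0∞) : MemLp (fun x => ex (h x)) p μ := by
  refine MemLp.of_bound (meas_exh hH hh).aestronglyMeasurable 1 ?_
  exact Eventually.of_forall fun x => (norm_ex _).le

theorem conj_ex (t : ℝ) : (starRingEnd ℂ) (ex t) = ex (-t) := by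
  rw [ex, ex, ← Complex.exp_conj]
  congr 1
  simp

/-- Exponential polynomials are dense. -/
theorem dense_EP [IsProbabilityMeasure μ] (hH : GaussSpace μ H)
    (hgen : ∀ A, MeasurableSet A → ∃ B, MeasurableSet[sig H] B ∧ A =ᵐ[μ] B)
    {f : X → ℂ} (hf : MemLp f 2 μ) {ε : ℝ} (hε : 0 < ε) :
    ∃ g ∈ EP H, ∫ x, ‖f x - g x‖ ∂μ ≤ ε := by
  let e : H → Lp ℂ 2 μ := fun h => (memLp_ex hH h.2 2).toLp (fun x => ex ((h : X → ℝ) x))
  let K : Submodule ℂ (Lp ℂ 2 μ) := Submodule.span ℂ (Set.range e)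
  have hK : Kᗮ = ⊥ := by
    rw [Submodule.eq_bot_iff]
    intro F hF
    have h1 : ∀ h ∈ H, ∫ x, ex (h x) * F x ∂μ = 0 := by
      intro h hh
      have h2 := (Submodule.mem_orthogonal _ _).mp hF (e ⟨-h, H.neg_mem hh⟩)
        (Submodule.subset_span ⟨_, rfl⟩)
      rw [L2.inner_def] at h2
      rw [← h2]
      apply integral_congr_ae
      have h3 := (memLp_ex hH (H.neg_mem hh) 2).coeFn_toLp
      filter_upwards [h3] with x hx
      show _ = inner ℂ ((e ⟨-h, H.neg_mem hh⟩ : Lp ℂ 2 μ) x) (F x)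
      have h4 : ((e ⟨-h, H.neg_mem hh⟩ : Lp ℂ 2 μ) x) = ex ((-h) x) := hx
      rw [h4, RCLike.inner_apply, conj_ex, Pi.neg_apply, neg_neg, mul_comm]
    have hFL : MemLp F 2 μ := Lp.memLp F
    have hFi : Integrable F μ := hFL.integrable (by norm_num)
    have hexF : ∀ h ∈ H, Integrable (fun x => ex (h x) * F x) μ := by
      intro h hh
      refine hFi.bdd_mul (c := 1) (meas_exh hH hh).aestronglyMeasurable
        (Eventually.of_forall fun x => (norm_ex _).le)
    have h1' : ∀ h ∈ H, ∫ x, ex (h x) * (starRingEnd ℂ) (F x) ∂μ = 0 := by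
      intro h hh
      have h2 := h1 (-h) (H.neg_mem hh)
      have h3 := congrArg (starRingEnd ℂ) h2
      rw [← integral_conj, map_zero] at h3
      rw [← h3]
      apply integral_congr_ae
      refine Eventually.of_forall fun x => ?_
      simp only [map_mul, conj_ex, Pi.neg_apply, neg_neg]
    have hexF' : ∀ h ∈ H, Integrable (fun x => ex (h x) * (starRingEnd ℂ) (F x)) μ := by
      intro h hh
      have hc : Integrable (fun x => (starRingEnd ℂ) (F x)) μ :=
        (RCLike.conjCLE (K := ℂ)).integrable_comp_iff.mpr hFi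
      exact hc.bdd_mul (c := 1) (meas_exh hH hh).aestronglyMeasurable
        (Eventually.of_forall fun x => (norm_ex _).le)
    obtain ⟨F', hF'm, hFF'⟩ := hFi.aestronglyMeasurable
    have hF'i : Integrable F' μ := hFi.congr hFF'
    have hre : (fun x => (F' x).re) =ᵐ[μ] 0 := by
      apply real_zero hH hgen hF'i.re (Complex.measurable_re.comp hF'm.measurable)
      intro h hh
      have h5 : ∫ x, ex (h x) * (((F' x).re : ℝ) : ℂ) ∂μ =
          (1 / 2 : ℂ) * (∫ x, ex (h x) * F x ∂μ + ∫ x, ex (h x) * (starRingEnd ℂ) (F x) ∂μ) := by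
        rw [← integral_add (hexF h hh) (hexF' h hh), ← integral_const_mul]
        apply integral_congr_ae
        filter_upwards [hFF'] with x hx
        rw [hx, ← mul_add, Complex.add_conj]
        push_cast
        ring
      refine Eq.trans h5 ?_
      rw [h1 h hh, h1' h hh, add_zero, mul_zero]
    have him : (fun x => (F' x).im) =ᵐ[μ] 0 := by
      apply real_zero hH hgen hF'i.im (Complex.measurable_im.comp hF'm.measurable)
      intro h hh
      have h5 : ∫ x, ex (h x) * (((F' x).im : ℝ) : ℂ) ∂μ =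
          (1 / (2 * Complex.I) : ℂ) * (∫ x, ex (h x) * F x ∂μ -
            ∫ x, ex (h x) * (starRingEnd ℂ) (F x) ∂μ) := by
        rw [← integral_sub (hexF h hh) (hexF' h hh), ← integral_const_mul]
        apply integral_congr_ae
        filter_upwards [hFF'] with x hx
        rw [hx, ← mul_sub, Complex.sub_conj]
        have hI : Complex.I ≠ 0 := Complex.I_ne_zero
        field_simp
        push_cast
        ring
      refine Eq.trans h5 ?_
      rw [h1 h hh, h1' h hh, sub_zero, mul_zero]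
    rw [Lp.eq_zero_iff_ae_eq_zero]
    filter_upwards [hFF', hre, him] with x hx1 hx2 hx3
    rw [hx1]
    exact Complex.ext hx2 hx3
  have hKtop : K.topologicalClosure = ⊤ := Submodule.topologicalClosure_eq_top_iff.mpr hK
  have hmem : hf.toLp f ∈ closure (K : Set (Lp ℂ 2 μ)) := by
    rw [← Submodule.topologicalClosure_coe, hKtop]
    trivial
  obtain ⟨G, hGK, hG⟩ := Metric.mem_closure_iff.mp hmem ε hε
  have hspan : ∀ G ∈ K, ∃ g ∈ EP H, (G : X → ℂ) =ᵐ[μ] g := by
    intro G hG
    refine Submodule.span_induction (p := fun (G : Lp ℂ 2 μ) _ => ∃ g ∈ EP H, (G : X → ℂ) =ᵐ[μ] g)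
      ?_ ?_ ?_ ?_ hG
    · rintro _ ⟨h, rfl⟩
      exact ⟨fun x => ex ((h : X → ℝ) x), Submodule.subset_span ⟨h, h.2, rfl⟩,
        (memLp_ex hH h.2 2).coeFn_toLp⟩
    · exact ⟨0, (EP H).zero_mem, Lp.coeFn_zero _ _ _⟩
    · rintro G₁ G₂ _ _ ⟨g₁, hg₁, h₁⟩ ⟨g₂, hg₂, h₂⟩
      refine ⟨g₁ + g₂, (EP H).add_mem hg₁ hg₂, ?_⟩
      filter_upwards [Lp.coeFn_add G₁ G₂, h₁, h₂] with x hx h1x h2x
      rw [hx, Pi.add_apply, Pi.add_apply, h1x, h2x]
    · rintro c G₁ _ ⟨g₁, hg₁, h₁⟩
      refine ⟨c • g₁, (EP H).smul_mem c hg₁, ?_⟩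
      filter_upwards [Lp.coeFn_smul c G₁, h₁] with x hx h1x
      rw [hx, Pi.smul_apply, Pi.smul_apply, h1x]
  obtain ⟨g, hg, hGg⟩ := hspan G hGK
  refine ⟨g, hg, ?_⟩
  have h6 : ∫ x, ‖f x - g x‖ ∂μ = ∫ x, ‖(hf.toLp f - G : Lp ℂ 2 μ) x‖ ∂μ := by
    apply integral_congr_ae
    filter_upwards [Lp.coeFn_sub (hf.toLp f) G, hf.coeFn_toLp, hGg] with x hx1 hx2 hx3
    rw [hx1, Pi.sub_apply, hx2, hx3]
  rw [h6]
  set D : Lp ℂ 2 μ := hf.toLp f - G with hD
  have hDm : MemLp D 2 μ := Lp.memLp D
  have h7 : ∫ x, ‖D x‖ ∂μ = (eLpNorm D 1 μ).toReal := by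
    rw [eLpNorm_one_eq_lintegral_enorm, integral_norm_eq_lintegral_enorm hDm.aestronglyMeasurable]
  have h8 : eLpNorm D 1 μ ≤ eLpNorm D 2 μ :=
    eLpNorm_le_eLpNorm_of_exponent_le (by norm_num) hDm.aestronglyMeasurable
  rw [h7]
  calc (eLpNorm D 1 μ).toReal ≤ (eLpNorm D 2 μ).toReal := ENNReal.toReal_mono hDm.2.ne h8
    _ = ‖D‖ := (Lp.norm_def D).symm
    _ ≤ ε := by
      rw [hD, ← dist_eq_norm]
      exact hG.le

end Pool.Agent.V1191.GR
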