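import Pool.Agent.V1191.GR.Riesz
import Pool.Agent.V1191.GR.Dens

/-!
# The Gaussian process with a given covariance function
-/

set_option autoImplicit false

open Filter Topology MeasureTheory ProbabilityTheory

noncomputable section

namespace Pool.Agent.V1191.GR

open InnerProductSpace in
/-- The Cholesky decomposition of the Gram matrix of a sequence of vectors. -/
theorem exists_cholesky {E : Type*} [NormedAddCommGroup E] [InnerProductSpace ℝ E] (v : ℕ → E) :
    ∃ c : ℕ → ℕ → ℝ, (∀ k i, k < i → c k i = 0) ∧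
      ∀ k l M, k < M → l < M → ∑ i ∈ Finset.range M, c k i * c l i = inner ℝ (v k) (v l) := by
  set g : ℕ → E := gramSchmidt ℝ v with hg
  have h0 : ∀ k i, k < i → inner ℝ (g i) (v k) = 0 := fun k i h =>
    gramSchmidt_inv_triangular ℝ v h
  have h1 : ∀ l, inner ℝ (g l) (v l) = ‖g l‖ ^ 2 := by
    intro l
    have e := gramSchmidt_def'' ℝ v l
    have : inner ℝ (g l) (v l) = inner ℝ (g l) (g l + ∑ i ∈ Finset.Iio l,
        ((inner ℝ (gramSchmidt ℝ v i) (v l) : ℝ) / ((‖gramSchmidt ℝ v i‖ : ℝ)) ^ 2) •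
          gramSchmidt ℝ v i) := by
      conv_lhs => rw [e]
      rfl
    rw [this, inner_add_right, real_inner_self_eq_norm_sq, inner_sum, Finset.sum_eq_zero, add_zero]
    intro i hi
    rw [inner_smul_right, gramSchmidt_orthogonal ℝ v (Finset.mem_Iio.mp hi).ne', mul_zero]
  have h2 : ∀ l M, l < M → v l = ∑ i ∈ Finset.range M, (inner ℝ (g i) (v l) / ‖g i‖ ^ 2) • g i := by
    intro l M hM
    have e := gramSchmidt_def'' ℝ v l
    have hs : ∑ i ∈ Finset.range M, (inner ℝ (g i) (v l) / ‖g i‖ ^ 2) • g i =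
        ∑ i ∈ Finset.range (l + 1), (inner ℝ (g i) (v l) / ‖g i‖ ^ 2) • g i := by
      symm
      apply Finset.sum_subset
      · intro i hi
        simp only [Finset.mem_range] at hi ⊢
        omega
      · intro i _ hi
        simp only [Finset.mem_range, not_lt] at hi
        rw [h0 l i (by omega)]
        simp
    rw [hs, Finset.sum_range_succ, h1, add_comm]
    have e2 : (‖g l‖ ^ 2 / ‖g l‖ ^ 2) • g l = g l := by
      by_cases hz : g l = 0
      · rw [hz]; simp
      · rw [div_self (by positivity), one_smul]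
    rw [e2]
    conv_lhs => rw [e]
    congr 1
    apply Finset.sum_congr
    · ext i; simp
    · intro i _; rfl
  refine ⟨fun k i => inner ℝ (g i) (v k) / ‖g i‖, ?_, ?_⟩
  · intro k i h
    simp only
    rw [h0 k i h, zero_div]
  · intro k l M hk hl
    conv_rhs => rw [h2 l M hl]
    rw [inner_sum]
    apply Finset.sum_congr rfl
    intro i _
    rw [inner_smul_right, real_inner_comm (g i) (v k)]
    by_cases hz : ‖g i‖ = 0
    · simp [hz]
    · field_simp

/-- The vectors with the given Gram matrix. -/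
theorem exists_vectors {r : ℤ → ℝ} (he : ∀ n, r (-n) = r n)
    (hp : ∀ (s : Finset ℤ) (t : ℤ → ℝ), 0 ≤ ∑ p ∈ s, ∑ q ∈ s, t p * t q * r (p - q)) :
    ∃ C : ℤ → ℕ → ℝ, ∃ N : ℤ → ℕ, (∀ p i, N p ≤ i → C p i = 0) ∧
      ∀ p q M, N p ≤ M → N q ≤ M → ∑ i ∈ Finset.range M, C p i * C q i = r (p - q) := by
  let K : Matrix ℤ ℤ (ℝ →L[ℝ] ℝ) := Matrix.of fun p q => r (p - q) • ContinuousLinearMap.id ℝ ℝ
  have hK : K.PosSemidef := by
    have htf : K.PosSemidef ↔ K.IsHermitian ∧ ∀ (vv : ℤ →₀ ℝ),
        0 ≤ RCLike.re (vv.sum fun x w ↦ vv.sum fun x' w' ↦ inner ℝ (K x' x w) w') :=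
      (RKHS.posSemidef_tfae (K := K)).out 0 2
    refine htf.mpr ⟨?_, ?_⟩
    · ext p q
      simp only [Matrix.conjTranspose_apply, K, Matrix.of_apply, star_smul, star_trivial]
      rw [← he (p - q), neg_sub]
      simp [ContinuousLinearMap.star_eq_adjoint]
    · intro vv
      have := hp vv.support vv
      refine this.trans (le_of_eq ?_)
      simp only [Finsupp.sum, K, Matrix.of_apply, RCLike.re_to_real]
      rw [Finset.sum_comm]
      apply Finset.sum_congr rfl
      intro p _
      apply Finset.sum_congr rfl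
      intro q _
      simp
      ring
  haveI : Fact K.PosSemidef := ⟨hK⟩
  let e : ℕ ≃ ℤ := (Denumerable.eqv ℤ).symm
  obtain ⟨c, hc0, hc1⟩ := exists_cholesky (fun k : ℕ => RKHS.kerFun (RKHS.OfKernel K) (e k) (1 : ℝ))
  refine ⟨fun p i => c (e.symm p) i, fun p => e.symm p + 1, ?_, ?_⟩
  · intro p i h
    exact hc0 _ _ h
  · intro p q M hp hq
    rw [hc1 _ _ M hp hq]
    rw [← RKHS.kernel_inner, RKHS.OfKernel.kernel_ofKernel]
    simp only [Equiv.apply_symm_apply, K, Matrix.of_apply]
    rw [← he, neg_sub]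
    simp

theorem int_prod (M : ℕ) (d : ℕ → ℝ) :
    ∫ ω, Complex.exp ((∑ i ∈ Finset.range M, d i * ω i : ℝ) * Complex.I)
      ∂(Measure.infinitePi fun _ : ℕ => gaussianReal 0 1) =
      Complex.exp ((-(∑ i ∈ Finset.range M, d i ^ 2) / 2 : ℝ) : ℂ) := by
  have h1 : ∀ ω : ℕ → ℝ, Complex.exp ((∑ i ∈ Finset.range M, d i * ω i : ℝ) * Complex.I) =
      (fun y : Finset.range M → ℝ => ∏ i : Finset.range M, Complex.exp ((d i * y i : ℝ) * Complex.I))
        ((Finset.range M).restrict ω) := by
    intro ω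
    simp only [Finset.restrict]
    rw [← Complex.exp_sum, ← Finset.sum_coe_sort]
    congr 1
    push_cast
    rw [Finset.sum_mul]
  simp only [h1]
  rw [integral_restrict_infinitePi (μ := fun _ : ℕ => gaussianReal 0 1) (s := Finset.range M)
    (f := fun y : Finset.range M → ℝ => ∏ i : Finset.range M, Complex.exp ((d i * y i : ℝ) * Complex.I))]
  · rw [integral_fintype_prod_eq_prod (𝕜 := ℂ) (fun (i : Finset.range M) (y : ℝ) =>
      Complex.exp ((d i * y : ℝ) * Complex.I))]
    have h2 : ∀ c : ℝ, ∫ y, Complex.exp ((c * y : ℝ) * Complex.I) ∂(gaussianReal 0 1) =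
        Complex.exp ((-(c ^ 2) / 2 : ℝ) : ℂ) := by
      intro c
      have h3 := charFun_gaussianReal (μ := 0) (v := 1) c
      rw [charFun_apply_real] at h3
      push_cast at h3 ⊢
      rw [h3]
      congr 1
      simp
      ring
    simp only [h2]
    rw [← Complex.exp_sum, ← Finset.sum_coe_sort (Finset.range M)]
    congr 1
    push_cast
    rw [← Finset.sum_neg_distrib, Finset.sum_div]
  · apply Continuous.aestronglyMeasurable
    fun_prop

/-- The Gaussian measure. -/
theorem exists_gauss {r : ℤ → ℝ} (he : ∀ n, r (-n) = r n)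
    (hp : ∀ (s : Finset ℤ) (t : ℤ → ℝ), 0 ≤ ∑ p ∈ s, ∑ q ∈ s, t p * t q * r (p - q)) :
    ∃ μ : Measure (ℤ → ℝ), IsProbabilityMeasure μ ∧ ∀ (s : Finset ℤ) (t : ℤ → ℝ),
      ∫ ω, Complex.exp ((∑ p ∈ s, t p * ω p : ℝ) * Complex.I) ∂μ =
        Complex.exp ((-(∑ p ∈ s, ∑ q ∈ s, t p * t q * r (p - q)) / 2 : ℝ) : ℂ) := by
  obtain ⟨C, N, h0, h1⟩ := exists_vectors he hp
  set P : Measure (ℕ → ℝ) := Measure.infinitePi fun _ : ℕ => gaussianReal 0 1 with hP
  let Φ : (ℕ → ℝ) → (ℤ → ℝ) := fun ω p => ∑ i ∈ Finset.range (N p), C p i * ω i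
  have hΦ : Measurable Φ := by
    apply measurable_pi_lambda
    intro p
    apply Finset.measurable_sum
    intro i _
    exact (measurable_pi_apply i).const_mul _
  refine ⟨P.map Φ, Measure.isProbabilityMeasure_map hΦ.aemeasurable, ?_⟩
  intro s t
  rw [integral_map hΦ.aemeasurable]
  swap
  · apply Measurable.aestronglyMeasurable
    have : Measurable fun ω : ℤ → ℝ => ∑ p ∈ s, t p * ω p := by
      apply Finset.measurable_sum
      intro p _
      exact (measurable_pi_apply p).const_mul _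
    fun_prop
  set M : ℕ := s.sup N with hM
  have hN : ∀ p ∈ s, N p ≤ M := fun p hps => Finset.le_sup hps
  have h2 : ∀ ω : ℕ → ℝ, ∑ p ∈ s, t p * Φ ω p =
      ∑ i ∈ Finset.range M, (∑ p ∈ s, t p * C p i) * ω i := by
    intro ω
    have : ∀ p ∈ s, t p * Φ ω p = ∑ i ∈ Finset.range M, t p * C p i * ω i := by
      intro p hps
      have e : Φ ω p = ∑ i ∈ Finset.range M, C p i * ω i := by
        apply Finset.sum_subset
        · intro i hi
          have := hN p hps
          simp only [Finset.mem_range] at hi ⊢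
          omega
        · intro i _ hi
          simp only [Finset.mem_range, not_lt] at hi
          rw [h0 p i hi, zero_mul]
      rw [e, Finset.mul_sum]
      apply Finset.sum_congr rfl
      intro i _
      ring
    rw [Finset.sum_congr rfl this, Finset.sum_comm]
    apply Finset.sum_congr rfl
    intro i _
    rw [Finset.sum_mul]
  simp only [h2]
  rw [int_prod M fun i => ∑ p ∈ s, t p * C p i]
  congr 3
  congr 1
  have h3 : ∀ p ∈ s, ∀ q ∈ s, t p * t q * r (p - q) =
      ∑ i ∈ Finset.range M, (t p * C p i) * (t q * C q i) := by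
    intro p hps q hqs
    rw [← h1 p q M (hN p hps) (hN q hqs), Finset.mul_sum]
    apply Finset.sum_congr rfl
    intro i _
    ring
  rw [Finset.sum_congr rfl fun p hps => Finset.sum_congr rfl fun q hqs => h3 p hps q hqs]
  rw [Finset.sum_congr rfl fun p _ => Finset.sum_comm, Finset.sum_comm]
  apply Finset.sum_congr rfl
  intro i _
  rw [pow_two, Finset.sum_mul_sum]

end Pool.Agent.V1191.GR
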