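import Pool.Agent.V1191.GR.Mix

/-!
# No set with summable correlations in the Gaussian system of the Riesz product
-/

set_option autoImplicit false

open Filter Topology MeasureTheory ProbabilityTheory
open scoped NNReal ComplexConjugate

noncomputable section

namespace Pool.Agent.V1191.GR

open Pool.Agent.W761.Gauss

section Abstract

variable {V : Type*} [NormedAddCommGroup V] [InnerProductSpace ℂ V] {ι : Type*}

theorem schur (K : Finset ι) (g : ι → V) (M : ℝ)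
    (h : ∀ k ∈ K, ∑ j ∈ K, ‖(inner ℂ (g k) (g j) : ℂ)‖ ≤ M) (b : ι → ℂ) :
    ‖∑ k ∈ K, b k • g k‖ ^ 2 ≤ M * ∑ k ∈ K, ‖b k‖ ^ 2 := by
  have h1 : ((‖∑ k ∈ K, b k • g k‖ ^ 2 : ℝ) : ℂ) =
      ∑ k ∈ K, ∑ j ∈ K, conj (b k) * b j * (inner ℂ (g k) (g j) : ℂ) := by
    have h2 := inner_self_eq_norm_sq_to_K (𝕜 := ℂ) (∑ k ∈ K, b k • g k)
    push_cast
    rw [← Complex.coe_algebraMap, ← h2, sum_inner]
    apply Finset.sum_congr rfl
    intro k _
    rw [inner_sum]
    apply Finset.sum_congr rfl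
    intro j _
    rw [inner_smul_left, inner_smul_right]
    ring
  have h3 : ‖∑ k ∈ K, b k • g k‖ ^ 2 ≤ ∑ k ∈ K, ∑ j ∈ K, ‖b k‖ * ‖b j‖ * ‖(inner ℂ (g k) (g j) : ℂ)‖ := by
    have h4 := congrArg norm h1
    rw [Complex.norm_real, Real.norm_of_nonneg (by positivity)] at h4
    rw [h4]
    refine (norm_sum_le _ _).trans (Finset.sum_le_sum fun k _ => ?_)
    refine (norm_sum_le _ _).trans (Finset.sum_le_sum fun j _ => ?_)
    rw [norm_mul, norm_mul, RCLike.norm_conj]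
  have h5 : ∑ k ∈ K, ∑ j ∈ K, ‖b k‖ * ‖b j‖ * ‖(inner ℂ (g k) (g j) : ℂ)‖ ≤
      ∑ k ∈ K, ∑ j ∈ K, (‖b k‖ ^ 2 / 2 * ‖(inner ℂ (g k) (g j) : ℂ)‖ +
        ‖b j‖ ^ 2 / 2 * ‖(inner ℂ (g k) (g j) : ℂ)‖) := by
    apply Finset.sum_le_sum fun k _ => Finset.sum_le_sum fun j _ => ?_
    rw [← add_mul]
    apply mul_le_mul_of_nonneg_right _ (norm_nonneg _)
    nlinarith [sq_nonneg (‖b k‖ - ‖b j‖)]
  have h6 : ∑ k ∈ K, ∑ j ∈ K, ‖b k‖ ^ 2 / 2 * ‖(inner ℂ (g k) (g j) : ℂ)‖ ≤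
      M / 2 * ∑ k ∈ K, ‖b k‖ ^ 2 := by
    rw [Finset.mul_sum]
    apply Finset.sum_le_sum
    intro k hk
    rw [← Finset.mul_sum]
    have := h k hk
    have hb : 0 ≤ ‖b k‖ ^ 2 := by positivity
    nlinarith
  have h7 : ∑ k ∈ K, ∑ j ∈ K, ‖b j‖ ^ 2 / 2 * ‖(inner ℂ (g k) (g j) : ℂ)‖ ≤
      M / 2 * ∑ k ∈ K, ‖b k‖ ^ 2 := by
    rw [Finset.sum_comm]
    refine le_trans (le_of_eq ?_) h6
    apply Finset.sum_congr rfl
    intro k _
    apply Finset.sum_congr rfl
    intro j _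
    rw [norm_inner_symm]
  calc ‖∑ k ∈ K, b k • g k‖ ^ 2 ≤ _ := h3
    _ ≤ _ := h5
    _ = ∑ k ∈ K, ∑ j ∈ K, ‖b k‖ ^ 2 / 2 * ‖(inner ℂ (g k) (g j) : ℂ)‖ +
        ∑ k ∈ K, ∑ j ∈ K, ‖b j‖ ^ 2 / 2 * ‖(inner ℂ (g k) (g j) : ℂ)‖ := by
      rw [← Finset.sum_add_distrib]
      apply Finset.sum_congr rfl
      intro k _
      rw [← Finset.sum_add_distrib]
    _ ≤ _ := by linarith

theorem key (K : Finset ι) (f x : V) (g D y z : ι → V) {M R : ℝ} (hM : 0 ≤ M) (hR : 0 ≤ R)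
    (hg : ∀ k ∈ K, ∑ j ∈ K, ‖(inner ℂ (g k) (g j) : ℂ)‖ ≤ M)
    (hD : ∀ k ∈ K, ∑ j ∈ K, ‖(inner ℂ (D k) (D j) : ℂ)‖ ≤ R)
    (h1 : ∀ k ∈ K, (inner ℂ f (z k) : ℂ) = inner ℂ (g k) x) (h2 : ∀ k ∈ K, D k = z k - y k) :
    ∑ k ∈ K, ‖(inner ℂ f (y k) : ℂ)‖ ^ 2 ≤ (√M * ‖x‖ + √R * ‖f‖) ^ 2 := by
  set S : ℝ := ∑ k ∈ K, ‖(inner ℂ f (y k) : ℂ)‖ ^ 2 with hS
  set β : ι → ℂ := fun k => inner ℂ f (y k) with hβ
  have hS0 : 0 ≤ S := Finset.sum_nonneg fun k _ => by positivity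
  have e1 : (S : ℂ) = inner ℂ (∑ k ∈ K, β k • g k) x - inner ℂ f (∑ k ∈ K, conj (β k) • D k) := by
    rw [sum_inner, inner_sum, ← Finset.sum_sub_distrib, hS]
    push_cast
    apply Finset.sum_congr rfl
    intro k hk
    rw [inner_smul_left, inner_smul_right, ← mul_sub, ← h1 k hk, h2 k hk, inner_sub_right,
      sub_sub_cancel]
    have : (inner ℂ f (y k) : ℂ) = β k := rfl
    rw [this, mul_comm, Complex.mul_conj, Complex.normSq_eq_norm_sq]
    push_cast
    rfl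
  have e2 : S ≤ ‖∑ k ∈ K, β k • g k‖ * ‖x‖ + ‖f‖ * ‖∑ k ∈ K, conj (β k) • D k‖ := by
    have h3 := congrArg norm e1
    rw [Complex.norm_real, Real.norm_of_nonneg hS0] at h3
    rw [h3]
    exact (norm_sub_le _ _).trans (add_le_add (norm_inner_le_norm _ _) (norm_inner_le_norm _ _))
  have e3 : ‖∑ k ∈ K, β k • g k‖ ≤ √M * √S := by
    rw [← Real.sqrt_mul hM]
    apply Real.le_sqrt_of_sq_le
    exact schur K g M hg β
  have e4 : ‖∑ k ∈ K, conj (β k) • D k‖ ≤ √R * √S := by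
    rw [← Real.sqrt_mul hR]
    apply Real.le_sqrt_of_sq_le
    refine (schur K D R hD fun k => conj (β k)).trans (le_of_eq ?_)
    simp only [RCLike.norm_conj]
    rfl
  have e5 : S ≤ √S * (√M * ‖x‖ + √R * ‖f‖) := by
    calc S ≤ _ := e2
      _ ≤ √M * √S * ‖x‖ + ‖f‖ * (√R * √S) := by gcongr
      _ = _ := by ring
  rcases eq_or_lt_of_le hS0 with h0 | h0
  · rw [← h0]
    positivity
  · have h4 : 0 < √S := Real.sqrt_pos.mpr h0
    have h5 : √S * √S = S := Real.mul_self_sqrt hS0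
    have h6 : √S ≤ √M * ‖x‖ + √R * ‖f‖ := by
      rw [← h5] at e5
      rw [h5] at e5
      have : √S * √S ≤ √S * (√M * ‖x‖ + √R * ‖f‖) := by rw [h5]; exact e5
      exact le_of_mul_le_mul_left this h4
    calc S = √S ^ 2 := by rw [Real.sq_sqrt hS0]
      _ ≤ _ := by gcongr

end Abstract

variable {r : ℤ → ℝ} {μ : Measure (ℤ → ℝ)}

/-- The vector of a bounded function. -/
def vec (μ : Measure (ℤ → ℝ)) [IsProbabilityMeasure μ] (F : (ℤ → ℝ) → ℂ) (hF : Bd F) : Lp ℂ 2 μ :=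
  MemLp.toLp F (p := 2) (μ := μ)
    (MemLp.of_bound hF.1.aestronglyMeasurable hF.2.choose (Eventually.of_forall hF.2.choose_spec))

theorem inner_vec [IsProbabilityMeasure μ] {F G : (ℤ → ℝ) → ℂ} (hF : Bd F) (hG : Bd G) :
    (inner ℂ (vec μ F hF) (vec μ G hG) : ℂ) = ∫ ω, conj (F ω) * G ω ∂μ := by
  rw [L2.inner_def]
  apply integral_congr_ae
  filter_upwards [MemLp.coeFn_toLp (p := 2) (μ := μ) (MemLp.of_bound hF.1.aestronglyMeasurable
    hF.2.choose (Eventually.of_forall hF.2.choose_spec)),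
    MemLp.coeFn_toLp (p := 2) (μ := μ) (MemLp.of_bound hG.1.aestronglyMeasurable
    hG.2.choose (Eventually.of_forall hG.2.choose_spec))] with ω h1 h2
  unfold vec
  rw [h1, h2, RCLike.inner_apply, mul_comm]

/-- The normalised exponentials. -/
def Wf (r : ℤ → ℝ) (u : ℤ →₀ ℝ) (ω : ℤ → ℝ) : ℂ := ((Real.exp (B r u u / 2) : ℝ) : ℂ) * ex (L u ω)

theorem Wf_Bd (r : ℤ → ℝ) (u : ℤ →₀ ℝ) : Bd (Wf r u) := by
  refine ⟨(meas_ex.comp (L_meas u)).const_mul _, Real.exp (B r u u / 2), fun ω => ?_⟩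
  rw [Wf, norm_mul, norm_ex, mul_one, Complex.norm_real, Real.norm_of_nonneg (Real.exp_pos _).le]

theorem inner_W [IsProbabilityMeasure μ] (he : ∀ n, r (-n) = r n) (hμ : IsG μ r) (u v : ℤ →₀ ℝ) :
    (inner ℂ (vec μ _ (Wf_Bd r u)) (vec μ _ (Wf_Bd r v)) : ℂ) = ((Real.exp (B r u v) : ℝ) : ℂ) := by
  rw [inner_vec]
  have h1 : ∀ ω, conj (Wf r u ω) * Wf r v ω =
      ((Real.exp (B r u u / 2) * Real.exp (B r v v / 2) : ℝ) : ℂ) * ex (L (v - u) ω) := by
    intro ω
    rw [Wf, Wf, map_mul, Complex.conj_ofReal, conj_ex, L_sub, sub_eq_add_neg, ex_add]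
    push_cast
    ring
  simp only [h1]
  rw [integral_const_mul, hμ, B_sub_sub he]
  rw [← Complex.ofReal_exp, ← Complex.ofReal_mul, ← Real.exp_add, ← Real.exp_add]
  congr 2
  rw [B_symm he v u]
  ring

/-- Real bounded measurable functions. -/
def RB (f : (ℤ → ℝ) → ℝ) : Prop := Measurable f ∧ ∃ C : ℝ, ∀ ω, |f ω| ≤ C

/-- The correlations. -/
def cc (μ : Measure (ℤ → ℝ)) (f : (ℤ → ℝ) → ℝ) (n : ℤ) : ℝ :=
  ∫ ω, f ω * f ((shift ^ n : Equiv.Perm (ℤ → ℝ)) ω) ∂μ

theorem RB.mul {f g : (ℤ → ℝ) → ℝ} (hf : RB f) (hg : RB g) : RB fun ω => f ω * g ω := by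
  obtain ⟨h1, C, hC⟩ := hf
  obtain ⟨h2, D, hD⟩ := hg
  refine ⟨h1.mul h2, C * D, fun ω => ?_⟩
  rw [abs_mul]
  exact mul_le_mul (hC ω) (hD ω) (abs_nonneg _) ((abs_nonneg _).trans (hC ω))

theorem RB.comp {f : (ℤ → ℝ) → ℝ} (hf : RB f) (n : ℤ) :
    RB fun ω => f ((shift ^ n : Equiv.Perm (ℤ → ℝ)) ω) := by
  obtain ⟨h1, C, hC⟩ := hf
  exact ⟨h1.comp (shift_zpow_meas n), C, fun ω => hC _⟩

theorem RB.int [IsProbabilityMeasure μ] {f : (ℤ → ℝ) → ℝ} (hf : RB f) : Integrable f μ := by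
  obtain ⟨h1, C, hC⟩ := hf
  exact Integrable.of_bound h1.aestronglyMeasurable C (Eventually.of_forall hC)

theorem shift_comp (j k : ℤ) (ω : ℤ → ℝ) : (shift ^ k : Equiv.Perm (ℤ → ℝ))
    ((shift ^ j : Equiv.Perm (ℤ → ℝ)) ω) = (shift ^ (j + k) : Equiv.Perm (ℤ → ℝ)) ω := by
  rw [← Equiv.Perm.mul_apply, ← zpow_add, add_comm]

theorem int_shift [IsProbabilityMeasure μ] (hμ : IsG μ r) {f : (ℤ → ℝ) → ℝ} (hf : RB f) (j k : ℤ) :
    ∫ ω, f ((shift ^ j : Equiv.Perm (ℤ → ℝ)) ω) * f ((shift ^ k : Equiv.Perm (ℤ → ℝ)) ω) ∂μ =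
      cc μ f (k - j) := by
  have h1 := int_comp hμ (f := fun ω => f ω * f ((shift ^ (k - j) : Equiv.Perm (ℤ → ℝ)) ω)) j
    (hf.1.mul (hf.1.comp (shift_zpow_meas _)))
  rw [cc, ← h1]
  congr 1
  funext ω
  rw [shift_comp]
  congr 4
  ring

theorem cc_neg [IsProbabilityMeasure μ] (hμ : IsG μ r) {f : (ℤ → ℝ) → ℝ} (hf : RB f) (n : ℤ) :
    cc μ f (-n) = cc μ f n := by
  have h1 := int_shift hμ hf 0 (-n)
  have h2 := int_shift hμ hf (-n) 0
  rw [sub_zero] at h1
  rw [zero_sub, neg_neg] at h2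
  rw [← h1, ← h2]
  congr 1
  funext ω
  ring

theorem cc_sum_nonneg [IsProbabilityMeasure μ] (hμ : IsG μ r) {f : (ℤ → ℝ) → ℝ} (hf : RB f)
    (I : Finset ℤ) : 0 ≤ ∑ j ∈ I, ∑ k ∈ I, cc μ f (k - j) := by
  have h1 : ∑ j ∈ I, ∑ k ∈ I, cc μ f (k - j) =
      ∫ ω, (∑ j ∈ I, f ((shift ^ j : Equiv.Perm (ℤ → ℝ)) ω)) ^ 2 ∂μ := by
    have e : ∀ ω, (∑ j ∈ I, f ((shift ^ j : Equiv.Perm (ℤ → ℝ)) ω)) ^ 2 =
        ∑ j ∈ I, ∑ k ∈ I, f ((shift ^ j : Equiv.Perm (ℤ → ℝ)) ω) *
          f ((shift ^ k : Equiv.Perm (ℤ → ℝ)) ω) := by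
      intro ω
      rw [pow_two, Finset.sum_mul_sum]
    simp only [e]
    rw [integral_finsetSum]
    · apply Finset.sum_congr rfl
      intro j _
      rw [integral_finsetSum]
      · apply Finset.sum_congr rfl
        intro k _
        rw [int_shift hμ hf]
      · intro k _
        exact ((hf.comp j).mul (hf.comp k)).int
    · intro j _
      apply integrable_finsetSum
      intro k _
      exact ((hf.comp j).mul (hf.comp k)).int
  rw [h1]
  apply integral_nonneg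
  intro ω
  positivity

/-- If only finitely many correlations are positive, then the correlations are summable. -/
theorem cc_bound [IsProbabilityMeasure μ] (hμ : IsG μ r) {f : (ℤ → ℝ) → ℝ} (hf : RB f)
    (P : Finset ℤ) (hP : ∀ n, n ∉ P → cc μ f n ≤ 0) :
    ∃ M : ℝ, 0 ≤ M ∧ ∀ S : Finset ℤ, ∑ n ∈ S, |cc μ f n| ≤ M := by
  set c : ℤ → ℝ := cc μ f with hc
  set Q : ℝ := ∑ n ∈ P, max (c n) 0 with hQ
  have hQ0 : 0 ≤ Q := Finset.sum_nonneg fun n _ => le_max_right _ _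
  have hpos : ∀ S : Finset ℤ, ∑ n ∈ S, max (c n) 0 ≤ Q := by
    intro S
    have h1 : ∑ n ∈ S, max (c n) 0 = ∑ n ∈ S ∩ P, max (c n) 0 := by
      symm
      apply Finset.sum_subset Finset.inter_subset_left
      intro n hn hn'
      rw [Finset.mem_inter, not_and] at hn'
      exact max_eq_right (hP n (hn' hn))
    rw [h1]
    exact Finset.sum_le_sum_of_subset_of_nonneg Finset.inter_subset_right
      fun n _ _ => le_max_right _ _
  have hneg : ∀ S : Finset ℤ, ∑ n ∈ S, max (-c n) 0 ≤ 2 * Q := by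
    intro S
    obtain ⟨L, hL1, hL⟩ : ∃ L : ℤ, 1 ≤ L ∧ ∀ n ∈ S, |n| ≤ L := by
      refine ⟨1 + ∑ n ∈ S, |n|, ?_, ?_⟩
      · have : 0 ≤ ∑ n ∈ S, |n| := Finset.sum_nonneg fun n _ => abs_nonneg n
        omega
      · intro n hn
        have := Finset.single_le_sum (f := fun n : ℤ => |n|) (fun n _ => abs_nonneg n) hn
        omega
    set I : Finset ℤ := Finset.Ico 0 (4 * L) with hI
    have h0 := cc_sum_nonneg hμ hf I
    have h1 : ∑ j ∈ I, ∑ k ∈ I, c (k - j) = ∑ j ∈ I, ∑ k ∈ I, max (c (k - j)) 0 -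
        ∑ j ∈ I, ∑ k ∈ I, max (-c (k - j)) 0 := by
      rw [← Finset.sum_sub_distrib]
      apply Finset.sum_congr rfl
      intro j _
      rw [← Finset.sum_sub_distrib]
      apply Finset.sum_congr rfl
      intro k _
      rcases le_total (c (k - j)) 0 with h | h
      · rw [max_eq_right h, max_eq_left (by linarith)]
        ring
      · rw [max_eq_left h, max_eq_right (by linarith)]
        ring
    have h2 : ∑ j ∈ I, ∑ k ∈ I, max (c (k - j)) 0 ≤ (4 * L : ℤ) * Q := by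
      have h3 : ∀ j ∈ I, ∑ k ∈ I, max (c (k - j)) 0 ≤ Q := by
        intro j _
        have := hpos (I.image fun k => k - j)
        rwa [Finset.sum_image (by intro a _ b _ h; simp only at h; omega)] at this
      calc ∑ j ∈ I, ∑ k ∈ I, max (c (k - j)) 0 ≤ ∑ _j ∈ I, Q := Finset.sum_le_sum h3
        _ = (4 * L : ℤ) * Q := by
          rw [Finset.sum_const, nsmul_eq_mul, hI, Int.card_Ico, sub_zero]
          congr 1
          have : ((4 * L).toNat : ℤ) = 4 * L := Int.toNat_of_nonneg (by omega)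
          exact_mod_cast this
    have h4 : (2 * L : ℤ) * ∑ n ∈ S, max (-c n) 0 ≤ ∑ j ∈ I, ∑ k ∈ I, max (-c (k - j)) 0 := by
      have h5 : ∀ j ∈ Finset.Ico L (3 * L), ∑ n ∈ S, max (-c n) 0 ≤ ∑ k ∈ I, max (-c (k - j)) 0 := by
        intro j hj
        rw [Finset.mem_Ico] at hj
        have h6 : ∑ n ∈ S, max (-c n) 0 = ∑ k ∈ S.image (fun n => n + j), max (-c (k - j)) 0 := by
          rw [Finset.sum_image (by intro a _ b _ h; simp only at h; omega)]
          apply Finset.sum_congr rfl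
          intro n _
          rw [add_sub_cancel_right]
        rw [h6]
        apply Finset.sum_le_sum_of_subset_of_nonneg
        · intro k hk
          rw [Finset.mem_image] at hk
          obtain ⟨n, hn, rfl⟩ := hk
          rw [hI, Finset.mem_Ico]
          have := abs_le.mp (hL n hn)
          omega
        · intro k _ _
          exact le_max_right _ _
      calc (2 * L : ℤ) * ∑ n ∈ S, max (-c n) 0
          = ∑ _j ∈ Finset.Ico L (3 * L), ∑ n ∈ S, max (-c n) 0 := by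
            rw [Finset.sum_const, nsmul_eq_mul, Int.card_Ico]
            congr 1
            have : ((3 * L - L).toNat : ℤ) = 2 * L := by
              rw [Int.toNat_of_nonneg (by omega)]
              ring
            exact_mod_cast this.symm
        _ ≤ ∑ j ∈ Finset.Ico L (3 * L), ∑ k ∈ I, max (-c (k - j)) 0 := Finset.sum_le_sum h5
        _ ≤ _ := by
          apply Finset.sum_le_sum_of_subset_of_nonneg
          · intro j hj
            rw [Finset.mem_Ico] at hj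
            rw [hI, Finset.mem_Ico]
            omega
          · intro j _ _
            exact Finset.sum_nonneg fun k _ => le_max_right _ _
    rw [h1] at h0
    have hLr : (1 : ℝ) ≤ (L : ℝ) := by exact_mod_cast hL1
    push_cast at h2 h4
    have h7 : 2 * (L : ℝ) * ∑ n ∈ S, max (-c n) 0 ≤ 4 * L * Q := by linarith
    have h8 : (L : ℝ) * ∑ n ∈ S, max (-c n) 0 ≤ L * (2 * Q) := by linarith
    exact le_of_mul_le_mul_left h8 (by linarith)
  refine ⟨3 * Q, by linarith, fun S => ?_⟩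
  have h1 : ∀ n, |c n| = max (c n) 0 + max (-c n) 0 := by
    intro n
    rcases le_total (c n) 0 with h | h
    · rw [max_eq_right h, max_eq_left (by linarith), abs_of_nonpos h]
      ring
    · rw [max_eq_left h, max_eq_right (by linarith), abs_of_nonneg h]
      ring
  simp only [h1, Finset.sum_add_distrib]
  linarith [hpos S, hneg S]

theorem int_comp' [IsProbabilityMeasure μ] (hμ : IsG μ r) {f : (ℤ → ℝ) → ℂ} (n : ℤ)
    (hf : Measurable f) :
    ∫ ω, f ((shift ^ n : Equiv.Perm (ℤ → ℝ)) ω) ∂μ = ∫ ω, f ω ∂μ := by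
  have h := mp_zpow hμ n
  conv_rhs => rw [← h.map_eq]
  rw [integral_map h.measurable.aemeasurable hf.aestronglyMeasurable]

end Pool.Agent.V1191.GR

namespace Pool.Agent.V1191.GR

open Pool.Agent.W761.Gauss
open scoped ComplexConjugate

variable {μ : Measure (ℤ → ℝ)}

theorem RB.Bd {f : (ℤ → ℝ) → ℝ} (hf : RB f) : Bd fun ω => ((f ω : ℝ) : ℂ) := by
  obtain ⟨h1, C, hC⟩ := hf
  refine ⟨Complex.measurable_ofReal.comp h1, C, fun ω => ?_⟩
  rw [Complex.norm_real]
  exact hC ω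

/-- The correlation of the exponentials along the powers of three. -/
theorem B_one {s : ℤ →₀ ℝ} {k : ℕ}
    (hk : ∀ p ∈ s.support, ∀ l ∈ s.support, 2 * |p - l| < (3 : ℤ) ^ k) :
    B r (tau (3 ^ k) s) s = a k / 2 * B r s s := by
  have h1 := B_tau_tau (r := r) (3 ^ k) 0 s s
  rw [tau_zero] at h1
  rw [h1]
  unfold B
  rw [Finsupp.mul_sum]
  apply Finset.sum_congr rfl
  intro p hp
  simp only
  rw [Finsupp.mul_sum]
  apply Finset.sum_congr rfl
  intro l hl
  simp only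
  rw [sub_zero, r_top (hk p hp l hl)]
  ring

theorem B_two {s : ℤ →₀ ℝ} {j k : ℕ} (hjk : j < k)
    (hk : ∀ p ∈ s.support, ∀ l ∈ s.support, 2 * |p - l| < (3 : ℤ) ^ j) :
    B r (tau (3 ^ k) s) (tau (3 ^ j) s) = a k / 2 * (a j / 2) * B r s s := by
  rw [B_tau_tau]
  unfold B
  rw [Finsupp.mul_sum]
  apply Finset.sum_congr rfl
  intro p hp
  simp only
  rw [Finsupp.mul_sum]
  apply Finset.sum_congr rfl
  intro l hl
  simp only
  rw [r_diff hjk (hk p hp l hl)]
  ring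

theorem exists_k0 (s : ℤ →₀ ℝ) : ∃ k0 : ℕ, ∀ k, k0 ≤ k →
    ∀ p ∈ s.support, ∀ l ∈ s.support, 2 * |p - l| < (3 : ℤ) ^ k := by
  refine ⟨∑ p ∈ s.support, ∑ q ∈ s.support, (p - q).natAbs, ?_⟩
  intro k hk p hp q hq
  have h1 : (p - q).natAbs ≤ ∑ p ∈ s.support, ∑ q ∈ s.support, (p - q).natAbs := by
    calc (p - q).natAbs ≤ ∑ q ∈ s.support, (p - q).natAbs :=
          Finset.single_le_sum (f := fun q => (p - q).natAbs) (fun _ _ => Nat.zero_le _) hq
      _ ≤ _ := Finset.single_le_sum (f := fun p => ∑ q ∈ s.support, (p - q).natAbs)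
          (fun _ _ => Nat.zero_le _) hp
  have h2 := lt_pow (p - q).natAbs
  rw [Int.natCast_natAbs] at h2
  have h3 : (3 : ℤ) ^ (p - q).natAbs ≤ 3 ^ k := pow_le_pow_right₀ (by norm_num) (h1.trans hk)
  omega

/-- The square summability along the coefficients of the Riesz product. -/
theorem sq_bound [IsProbabilityMeasure μ] (hμ : IsG μ r) {f : (ℤ → ℝ) → ℝ} (hf : RB f)
    {M : ℝ} (hM0 : 0 ≤ M) (hM : ∀ S : Finset ℤ, ∑ n ∈ S, |cc μ f n| ≤ M) (s : ℤ →₀ ℝ) :
    ∃ (k0 : ℕ) (C : ℝ), ∀ K : Finset ℕ, (∀ k ∈ K, k0 ≤ k) →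
      ∑ k ∈ K, ‖∫ ω, ((f ω : ℝ) : ℂ) * Wf r ((a k / 2) • s) ω ∂μ‖ ^ 2 ≤ C := by
  obtain ⟨k0, hk0⟩ := exists_k0 s
  set q : ℝ := B r s s with hq
  set x : Lp ℂ 2 μ := vec μ _ (Wf_Bd r s) with hx
  set f0 : Lp ℂ 2 μ := vec μ _ hf.Bd with hf0
  set z : ℕ → Lp ℂ 2 μ := fun k => vec μ _ (Wf_Bd r (tau (3 ^ k) s)) with hz
  set y : ℕ → Lp ℂ 2 μ := fun k => vec μ _ (Wf_Bd r ((a k / 2) • s)) with hy
  set g : ℕ → Lp ℂ 2 μ := fun k => vec μ _ (hf.comp (-3 ^ k)).Bd with hg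
  have hr := r_even
  have hDD : ∀ k j, (inner ℂ (z k - y k) (z j - y j) : ℂ) =
      ((Real.exp (B r (tau (3 ^ k) s) (tau (3 ^ j) s)) - Real.exp (a j / 2 * B r (tau (3 ^ k) s) s) -
        Real.exp (a k / 2 * B r s (tau (3 ^ j) s)) +
        Real.exp (a k / 2 * (a j / 2 * q)) : ℝ) : ℂ) := by
    intro k j
    rw [inner_sub_left, inner_sub_right, inner_sub_right]
    simp only [hz, hy]
    rw [inner_W hr hμ, inner_W hr hμ, inner_W hr hμ, inner_W hr hμ, B_smul_right, B_smul_left,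
      B_smul_left, B_smul_right]
    push_cast
    ring
  have hlt : ∀ k j, k0 ≤ k → k0 ≤ j → j < k → (inner ℂ (z k - y k) (z j - y j) : ℂ) = 0 := by
    intro k j hk hj hjk
    rw [hDD, B_two hjk (hk0 j hj), B_one (hk0 k hk), B_symm hr s (tau (3 ^ j) s), B_one (hk0 j hj)]
    have e1 : a k / 2 * (a j / 2) * B r s s = a k / 2 * (a j / 2 * q) := by rw [hq]; ring
    have e2 : a j / 2 * (a k / 2 * B r s s) = a k / 2 * (a j / 2 * q) := by rw [hq]; ring
    have e3 : a k / 2 * (a j / 2 * B r s s) = a k / 2 * (a j / 2 * q) := by rw [hq]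
    rw [e1, e2, e3]
    push_cast
    ring
  have horth : ∀ k j, k0 ≤ k → k0 ≤ j → k ≠ j → (inner ℂ (z k - y k) (z j - y j) : ℂ) = 0 := by
    intro k j hk hj hne
    rcases lt_or_gt_of_ne hne with h | h
    · rw [← inner_conj_symm, hlt j k hj hk h, map_zero]
    · exact hlt k j hk hj h
  have hdiag : ∀ k, k0 ≤ k → ‖(inner ℂ (z k - y k) (z k - y k) : ℂ)‖ ≤ Real.exp q := by
    intro k hk
    have h1 : (inner ℂ (z k - y k) (z k - y k) : ℂ) =
        ((Real.exp q - Real.exp (a k / 2 * (a k / 2 * q)) : ℝ) : ℂ) := by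
      rw [hDD, B_tau, B_one (hk0 k hk), B_symm hr s (tau (3 ^ k) s), B_one (hk0 k hk)]
      push_cast
      ring
    have h2 := inner_self_eq_norm_sq_to_K (𝕜 := ℂ) (z k - y k)
    have h3 : (0 : ℝ) ≤ Real.exp q - Real.exp (a k / 2 * (a k / 2 * q)) := by
      rw [h1] at h2
      have h4 : Real.exp q - Real.exp (a k / 2 * (a k / 2 * q)) = ‖z k - y k‖ ^ 2 := by
        have := congrArg Complex.re h2
        rw [Complex.ofReal_re] at this
        rw [this]
        norm_cast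
      rw [h4]
      positivity
    rw [h1, Complex.norm_real, Real.norm_of_nonneg h3]
    have := Real.exp_pos (a k / 2 * (a k / 2 * q))
    linarith
  have hgg : ∀ k j, (inner ℂ (g k) (g j) : ℂ) = ((cc μ f (3 ^ k - 3 ^ j) : ℝ) : ℂ) := by
    intro k j
    simp only [hg]
    rw [inner_vec]
    have e : ∀ ω : ℤ → ℝ, conj ((f ((shift ^ (-3 ^ k : ℤ) : Equiv.Perm (ℤ → ℝ)) ω) : ℝ) : ℂ) *
        ((f ((shift ^ (-3 ^ j : ℤ) : Equiv.Perm (ℤ → ℝ)) ω) : ℝ) : ℂ) =
        ((f ((shift ^ (-3 ^ k : ℤ) : Equiv.Perm (ℤ → ℝ)) ω) *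
          f ((shift ^ (-3 ^ j : ℤ) : Equiv.Perm (ℤ → ℝ)) ω) : ℝ) : ℂ) := by
      intro ω
      rw [Complex.conj_ofReal]
      push_cast
      ring
    simp only [e]
    rw [integral_complex_ofReal, int_shift hμ hf]
    congr 2
    ring
  refine ⟨k0, (√M * ‖x‖ + √(Real.exp q) * ‖f0‖) ^ 2, ?_⟩
  intro K hK
  have hkey := key K f0 x g (fun k => z k - y k) y z hM0 (Real.exp_pos q).le ?_ ?_ ?_ (fun _ _ => rfl)
  · refine le_trans (le_of_eq ?_) hkey
    apply Finset.sum_congr rfl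
    intro k _
    simp only [hf0, hy]
    rw [inner_vec]
    congr 2
    congr 1
    funext ω
    rw [Complex.conj_ofReal]
  · intro k hk
    simp only [hgg]
    have h1 := hM (K.image fun j => (3 : ℤ) ^ k - 3 ^ j)
    rw [Finset.sum_image] at h1
    · simpa only [Complex.norm_real, Real.norm_eq_abs] using h1
    · intro i _ j _ hij
      simp only at hij
      have : (3 : ℤ) ^ i = 3 ^ j := by omega
      exact Int.pow_right_injective (by norm_num) this
  · intro k hk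
    rw [Finset.sum_eq_single k]
    · exact hdiag k (hK k hk)
    · intro j hj hjk
      rw [horth k j (hK k hk) (hK j hj) hjk.symm, norm_zero]
    · intro h
      exact absurd hk h
  · intro k hk
    simp only [hf0, hz, hg, hx]
    rw [inner_vec, inner_vec]
    have h1 := int_comp' hμ (f := fun ω => ((f ((shift ^ (-3 ^ k : ℤ) : Equiv.Perm (ℤ → ℝ)) ω) : ℝ) : ℂ) *
      Wf r s ω) (3 ^ k) (((hf.comp (-3 ^ k)).Bd).1.mul (Wf_Bd r s).1)
    have h2 : ∫ ω, conj ((f ((shift ^ (-3 ^ k : ℤ) : Equiv.Perm (ℤ → ℝ)) ω) : ℝ) : ℂ) *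
        Wf r s ω ∂μ = ∫ ω, ((f ((shift ^ (-3 ^ k : ℤ) : Equiv.Perm (ℤ → ℝ)) ω) : ℝ) : ℂ) *
        Wf r s ω ∂μ := by
      congr 1
      funext ω
      rw [Complex.conj_ofReal]
    rw [h2, ← h1]
    congr 1
    funext ω
    rw [Complex.conj_ofReal, shift_comp, add_neg_cancel, zpow_zero]
    simp only [Wf, Equiv.Perm.coe_one, id]
    rw [B_tau, L_tau]

/-- The entire function whose values are the integrals against the exponentials. -/
def Phi (μ : Measure (ℤ → ℝ)) (A : Set (ℤ → ℝ)) (s : ℤ →₀ ℝ) (z : ℂ) : ℂ :=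
  Complex.exp (z ^ 2 * (B r s s : ℝ) / 2) *
    (complexMGF (L s) (μ.restrict A) (z * Complex.I) -
      (μ.real A : ℝ) * complexMGF (L s) μ (z * Complex.I))

theorem int_exp [IsProbabilityMeasure μ] (hμ : IsG μ r) (s : ℤ →₀ ℝ) (t : ℝ) :
    Integrable (fun ω => Real.exp (t * L s ω)) μ := by
  have h1 := law_L hμ s
  have h2 : Integrable (fun x => Real.exp (t * x)) (μ.map (L s)) := by
    rw [h1]
    exact integrable_exp_mul_gaussianReal t
  exact h2.comp_measurable (L_meas s)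

theorem Phi_diff [IsProbabilityMeasure μ] (hμ : IsG μ r) (A : Set (ℤ → ℝ)) (s : ℤ →₀ ℝ) :
    Differentiable ℂ (Phi μ A s) := by
  have h1 : integrableExpSet (L s) μ = Set.univ := by
    ext t
    simp only [Set.mem_univ, iff_true]
    exact int_exp hμ s t
  have h2 : integrableExpSet (L s) (μ.restrict A) = Set.univ := by
    ext t
    simp only [Set.mem_univ, iff_true]
    exact (int_exp hμ s t).restrict
  have h3 : Differentiable ℂ (complexMGF (L s) μ) := by
    have := differentiableOn_complexMGF (X := L s) (μ := μ)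
    rw [h1, interior_univ] at this
    exact differentiableOn_univ.mp (by simpa using this)
  have h4 : Differentiable ℂ (complexMGF (L s) (μ.restrict A)) := by
    have := differentiableOn_complexMGF (X := L s) (μ := μ.restrict A)
    rw [h2, interior_univ] at this
    exact differentiableOn_univ.mp (by simpa using this)
  have h5 : Differentiable ℂ fun z : ℂ => z * Complex.I := by fun_prop
  unfold Phi
  apply Differentiable.mul
  · fun_prop
  · exact (h4.comp h5).sub ((h3.comp h5).const_mul _)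

/-- The centred indicator function. -/
def ind (μ : Measure (ℤ → ℝ)) (A : Set (ℤ → ℝ)) (ω : ℤ → ℝ) : ℝ :=
  A.indicator (fun _ => (1 : ℝ)) ω - μ.real A

theorem ind_RB (A : Set (ℤ → ℝ)) (hA : MeasurableSet A) [IsProbabilityMeasure μ] :
    RB (ind μ A) := by
  refine ⟨(measurable_const.indicator hA).sub measurable_const, 1, fun ω => ?_⟩
  have h1 : μ.real A ≤ 1 := measureReal_le_one
  have h2 : 0 ≤ μ.real A := measureReal_nonneg
  unfold ind
  by_cases h : ω ∈ A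
  · rw [Set.indicator_of_mem h, abs_le]
    constructor <;> linarith
  · rw [Set.indicator_of_notMem h, abs_le]
    constructor <;> linarith

theorem Phi_eq [IsProbabilityMeasure μ] {A : Set (ℤ → ℝ)}
    (hA : MeasurableSet A) (s : ℤ →₀ ℝ) (t : ℝ) :
    Phi μ A s t = ∫ ω, ((ind μ A ω : ℝ) : ℂ) * Wf r (t • s) ω ∂μ := by
  have h1 : ∀ (ν : Measure (ℤ → ℝ)), complexMGF (L s) ν (t * Complex.I) =
      ∫ ω, ex (L (t • s) ω) ∂ν := by
    intro ν
    unfold complexMGF
    congr 1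
    funext ω
    rw [ex, L_smul]
    congr 1
    push_cast
    ring
  unfold Phi
  rw [h1, h1, ← integral_indicator hA, ← integral_const_mul, ← integral_sub, ← integral_const_mul]
  · apply integral_congr_ae
    refine Eventually.of_forall fun ω => ?_
    simp only [Wf, ind, B_smul_left, B_smul_right]
    have e : Complex.exp ((t : ℂ) ^ 2 * ((B r s s : ℝ) : ℂ) / 2) =
        ((Real.exp (t * (t * B r s s) / 2) : ℝ) : ℂ) := by
      push_cast
      congr 1
      ring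
    rw [e]
    by_cases h : ω ∈ A
    · rw [Set.indicator_of_mem h, Set.indicator_of_mem h]
      push_cast
      ring
    · rw [Set.indicator_of_notMem h, Set.indicator_of_notMem h]
      push_cast
      ring
  · exact (Bd.ex (t • s)).int.indicator hA
  · exact (Bd.ex (t • s)).int.const_mul _

/-- The entire functions vanish. -/
theorem Phi_zero [IsProbabilityMeasure μ] (hμ : IsG μ r) {A : Set (ℤ → ℝ)} (hA : MeasurableSet A)
    {M : ℝ} (hM0 : 0 ≤ M) (hM : ∀ S : Finset ℤ, ∑ n ∈ S, |cc μ (ind μ A) n| ≤ M) (s : ℤ →₀ ℝ) :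
    Phi μ A s 1 = 0 := by
  have hd := Phi_diff hμ A s
  have han : AnalyticOnNhd ℂ (Phi μ A s) Set.univ := fun z _ => hd.analyticAt z
  by_cases hz : ∀ᶠ z in 𝓝 (0 : ℂ), Phi μ A s z = 0
  · have := han.eqOn_zero_of_preconnected_of_eventuallyEq_zero isPreconnected_univ
      (Set.mem_univ 0) hz
    exact this (Set.mem_univ 1)
  · exfalso
    obtain ⟨m, g, hg1, hg2, hg3⟩ :=
      (han 0 (Set.mem_univ 0)).exists_eventuallyEq_pow_smul_nonzero_iff.mpr hz
    obtain ⟨k0, C, hC⟩ := sq_bound hμ (ind_RB (μ := μ) A hA) hM0 hM s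
    have hg4 : ∀ᶠ z in 𝓝 (0 : ℂ), ‖g 0‖ / 2 < ‖g z‖ := by
      have : Tendsto (fun z => ‖g z‖) (𝓝 0) (𝓝 ‖g 0‖) := hg1.continuousAt.norm
      exact this.eventually (lt_mem_nhds (by
        have : 0 < ‖g 0‖ := norm_pos_iff.mpr hg2
        linarith))
    have hcoef : Tendsto (fun k : ℕ => (((a k / 2 : ℝ)) : ℂ)) atTop (𝓝 0) := by
      have h1 : Tendsto (fun k : ℕ => a k / 2) atTop (𝓝 0) := by
        have := a_tendsto.div_const 2
        simpa using this
      have h2 := (Complex.continuous_ofReal.tendsto 0).comp h1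
      rw [Complex.ofReal_zero] at h2
      exact h2
    obtain ⟨k1, hk1⟩ := Filter.eventually_atTop.mp (hcoef.eventually (hg3.and hg4))
    have hlow : ∀ k, k1 ≤ k → (‖g 0‖ / 2 / 2 ^ m) ^ 2 * a k ^ (2 * m) ≤
        ‖∫ ω, ((ind μ A ω : ℝ) : ℂ) * Wf r ((a k / 2) • s) ω ∂μ‖ ^ 2 := by
      intro k hk
      obtain ⟨h1, h2⟩ := hk1 k hk
      rw [← Phi_eq hA, h1, sub_zero, norm_smul, norm_pow, Complex.norm_real,
        Real.norm_of_nonneg (by have := a_pos k; linarith)]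
      have h3 : (‖g 0‖ / 2 / 2 ^ m) ^ 2 * a k ^ (2 * m) = ((a k / 2) ^ m * (‖g 0‖ / 2)) ^ 2 := by
        rw [div_pow (a k), pow_mul']
        ring
      rw [h3]
      have := a_pos k
      gcongr
    apply a_not_summable ((‖g 0‖ / 2 / 2 ^ m) ^ 2) (by
      have : 0 < ‖g 0‖ := norm_pos_iff.mpr hg2
      positivity) (2 * m)
    rw [← summable_nat_add_iff (max k0 k1)]
    apply summable_of_sum_range_le (c := C)
    · intro n
      have := a_pos (n + max k0 k1)
      positivity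
    · intro n
      have h1 := hC ((Finset.range n).image fun i => i + max k0 k1) (by
        intro k hk
        rw [Finset.mem_image] at hk
        obtain ⟨i, _, rfl⟩ := hk
        have := le_max_left k0 k1
        omega)
      rw [Finset.sum_image (by intro i _ j _ h; simp only at h; omega)] at h1
      refine le_trans (Finset.sum_le_sum fun i _ => ?_) h1
      exact hlow _ (by
        have := le_max_right k0 k1
        omega)

/-- **Main lemma.** -/
theorem trivial_of_bound [IsProbabilityMeasure μ] (hμ : IsG μ r) {A : Set (ℤ → ℝ)}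
    (hA : MeasurableSet A) {M : ℝ} (hM0 : 0 ≤ M)
    (hM : ∀ S : Finset ℤ, ∑ n ∈ S, |cc μ (ind μ A) n| ≤ M) : μ.real A = 0 ∨ μ.real A = 1 := by
  have hRB := ind_RB (μ := μ) A hA
  have h1 : ind μ A =ᵐ[μ] 0 := by
    apply real_zero (gaussSpace hμ) hgen hRB.int hRB.1
    rintro _ ⟨s, rfl⟩
    have h2 := Phi_zero hμ hA hM0 hM s
    have h3 := Phi_eq (μ := μ) hA s 1
    rw [Complex.ofReal_one, h2, one_smul] at h3
    have h4 : ∫ ω, ((ind μ A ω : ℝ) : ℂ) * Wf r s ω ∂μ =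
        ((Real.exp (B r s s / 2) : ℝ) : ℂ) * ∫ ω, ex (L s ω) * ((ind μ A ω : ℝ) : ℂ) ∂μ := by
      rw [← integral_const_mul]
      congr 1
      funext ω
      rw [Wf]
      ring
    rw [h4] at h3
    have h5 : ((Real.exp (B r s s / 2) : ℝ) : ℂ) ≠ 0 := by
      exact_mod_cast (Real.exp_pos _).ne'
    exact (mul_eq_zero.mp h3.symm).resolve_left h5
  by_contra hne
  rw [not_or] at hne
  have h6 : ∀ᵐ ω ∂μ, False := by
    filter_upwards [h1] with ω hω
    simp only [ind, Pi.zero_apply] at hω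
    by_cases h : ω ∈ A
    · rw [Set.indicator_of_mem h] at hω
      exact hne.2 (by linarith)
    · rw [Set.indicator_of_notMem h] at hω
      exact hne.1 (by linarith)
  have h7 : μ = 0 := by
    rw [← MeasureTheory.ae_eq_bot]
    rw [Filter.eventually_false_iff_eq_bot] at h6
    exact h6
  exact (IsProbabilityMeasure.ne_zero μ) h7

/-- The correlations of a set. -/
theorem cc_ind [IsProbabilityMeasure μ] (hμ : IsG μ r) {A : Set (ℤ → ℝ)}
    (hA : MeasurableSet A) (n : ℤ) :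
    cc μ (ind μ A) n = μ.real (A ∩ (shift ^ n : Equiv.Perm (ℤ → ℝ)) '' A) - μ.real A ^ 2 := by
  rw [← cc_neg hμ (ind_RB (μ := μ) A hA)]
  have hm : MeasurableSet ((shift ^ n : Equiv.Perm (ℤ → ℝ)) '' A) := by
    rw [Equiv.image_eq_preimage_symm]
    have : ((shift ^ n : Equiv.Perm (ℤ → ℝ)).symm : (ℤ → ℝ) → (ℤ → ℝ)) =
        (shift ^ (-n) : Equiv.Perm (ℤ → ℝ)) := by
      rw [zpow_neg]
      rfl
    rw [this]
    exact shift_zpow_meas _ hA
  have hmem : ∀ ω, ω ∈ (shift ^ n : Equiv.Perm (ℤ → ℝ)) '' A ↔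
      (shift ^ (-n) : Equiv.Perm (ℤ → ℝ)) ω ∈ A := by
    intro ω
    rw [zpow_neg]
    exact Set.mem_image_equiv
  have hR : RB (A.indicator fun _ => (1 : ℝ)) := by
    refine ⟨measurable_const.indicator hA, 1, fun ω => ?_⟩
    by_cases h : ω ∈ A
    · rw [Set.indicator_of_mem h]; simp
    · rw [Set.indicator_of_notMem h]; simp
  have e : ∀ ω, ind μ A ω * ind μ A ((shift ^ (-n) : Equiv.Perm (ℤ → ℝ)) ω) =
      ((A ∩ (shift ^ n : Equiv.Perm (ℤ → ℝ)) '' A).indicator (fun _ => (1 : ℝ)) ω -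
        μ.real A * (A.indicator (fun _ => (1 : ℝ)) ω)) -
        (μ.real A * (A.indicator (fun _ => (1 : ℝ)) ((shift ^ (-n) : Equiv.Perm (ℤ → ℝ)) ω)) -
        μ.real A ^ 2) := by
    intro ω
    classical
    simp only [ind, Set.indicator_apply, Set.mem_inter_iff, hmem]
    by_cases ha : ω ∈ A <;> by_cases hb' : (shift ^ (-n) : Equiv.Perm (ℤ → ℝ)) ω ∈ A <;>
      simp only [ha, hb', and_self, and_true, and_false, if_true, if_false] <;> ring
  have i1 : Integrable (fun ω => (A ∩ (shift ^ n : Equiv.Perm (ℤ → ℝ)) '' A).indicator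
      (fun _ => (1 : ℝ)) ω) μ := (integrable_const _).indicator (hA.inter hm)
  have h0 : ∫ ω, A.indicator (fun _ => (1 : ℝ)) ω ∂μ = μ.real A := by
    rw [integral_indicator hA, setIntegral_const]
    simp
  rw [cc]
  simp only [e]
  rw [integral_sub, integral_sub, integral_sub, integral_const_mul, integral_const_mul,
    int_comp hμ (-n) hR.1, h0, integral_indicator (hA.inter hm), setIntegral_const]
  · simp
    ring
  · exact (hR.comp (-n)).int.const_mul _
  · exact integrable_const _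
  · exact i1
  · exact hR.int.const_mul _
  · exact i1.sub (hR.int.const_mul _)
  · exact ((hR.comp (-n)).int.const_mul _).sub (integrable_const _)

/-- In the Gaussian system of the Riesz product every nontrivial set has infinitely many positive
correlations. -/
theorem infinite_pos [IsProbabilityMeasure μ] (hμ : IsG μ r) {A : Set (ℤ → ℝ)}
    (hA : MeasurableSet A) (h0 : μ.real A ≠ 0) (h1 : μ.real A ≠ 1) :
    {n : ℤ | μ.real A ^ 2 < μ.real (A ∩ (shift ^ n : Equiv.Perm (ℤ → ℝ)) '' A)}.Infinite := by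
  by_contra hfin
  rw [Set.not_infinite] at hfin
  obtain ⟨M, hM0, hM⟩ := cc_bound hμ (ind_RB (μ := μ) A hA) hfin.toFinset (by
    intro n hn
    rw [Set.Finite.mem_toFinset, Set.mem_ofPred_eq, not_lt] at hn
    rw [cc_ind hμ hA]
    linarith)
  rcases trivial_of_bound hμ hA hM0 hM with h | h
  · exact h0 h
  · exact h1 h

end Pool.Agent.V1191.GR
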