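import Pool.Agent.V1191.GR.Gauss

/-!
# The Gaussian system is mixing
-/

set_option autoImplicit false

open Filter Topology MeasureTheory ProbabilityTheory
open scoped NNReal

noncomputable section

namespace Pool.Agent.V1191.GR

open Pool.Agent.W761.Gauss

/-- Finite linear combinations of the coordinates. -/
def L (t : ℤ →₀ ℝ) (ω : ℤ → ℝ) : ℝ := t.sum fun p c => c * ω p

theorem L_eq (t : ℤ →₀ ℝ) (ω : ℤ → ℝ) : L t ω = ∑ p ∈ t.support, t p * ω p := rfl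

theorem L_add (s t : ℤ →₀ ℝ) (ω : ℤ → ℝ) : L (s + t) ω = L s ω + L t ω := by
  unfold L
  rw [Finsupp.sum_add_index']
  · intro p; simp
  · intro p a b; ring

theorem L_smul (c : ℝ) (t : ℤ →₀ ℝ) (ω : ℤ → ℝ) : L (c • t) ω = c * L t ω := by
  unfold L
  rw [Finsupp.sum_smul_index' (by intro p; simp), Finsupp.mul_sum]
  apply Finsupp.sum_congr
  intro p _
  simp [mul_assoc]

theorem L_neg (t : ℤ →₀ ℝ) (ω : ℤ → ℝ) : L (-t) ω = - L t ω := by
  have := L_smul (-1) t ω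
  simpa using this

theorem L_sub (s t : ℤ →₀ ℝ) (ω : ℤ → ℝ) : L (s - t) ω = L s ω - L t ω := by
  rw [sub_eq_add_neg, L_add, L_neg, sub_eq_add_neg]

theorem L_zero (ω : ℤ → ℝ) : L 0 ω = 0 := by simp [L]

theorem L_single (p : ℤ) (c : ℝ) (ω : ℤ → ℝ) : L (Finsupp.single p c) ω = c * ω p := by
  unfold L
  rw [Finsupp.sum_single_index]
  simp

theorem L_meas (t : ℤ →₀ ℝ) : Measurable (L t) := by
  unfold L Finsupp.sum
  apply Finset.measurable_sum
  intro p _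
  exact (measurable_pi_apply p).const_mul _

/-- The shift of coefficient vectors. -/
def tau (n : ℤ) (t : ℤ →₀ ℝ) : ℤ →₀ ℝ := t.mapDomain fun p => p + n

theorem L_tau (n : ℤ) (t : ℤ →₀ ℝ) (ω : ℤ → ℝ) : L (tau n t) ω = L t ((shift ^ n) ω) := by
  unfold L tau
  rw [Finsupp.sum_mapDomain_index (by intro p; simp) (by intro p a b; ring)]
  apply Finsupp.sum_congr
  intro p _
  rw [shift_zpow]

variable {r : ℤ → ℝ}

/-- The covariance form. -/
def B (r : ℤ → ℝ) (s t : ℤ →₀ ℝ) : ℝ := s.sum fun p a => t.sum fun q b => a * b * r (p - q)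

theorem B_add_left (s s' t : ℤ →₀ ℝ) : B r (s + s') t = B r s t + B r s' t := by
  unfold B
  rw [Finsupp.sum_add_index']
  · intro p; simp
  · intro p a b
    rw [← Finsupp.sum_add]
    apply Finsupp.sum_congr
    intro q _
    ring

theorem B_add_right (s t t' : ℤ →₀ ℝ) : B r s (t + t') = B r s t + B r s t' := by
  unfold B
  rw [← Finsupp.sum_add]
  apply Finsupp.sum_congr
  intro p _
  rw [Finsupp.sum_add_index']
  · intro p; simp
  · intro p a b
    ring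

theorem B_smul_left (c : ℝ) (s t : ℤ →₀ ℝ) : B r (c • s) t = c * B r s t := by
  unfold B
  rw [Finsupp.sum_smul_index' (by intro p; simp), Finsupp.mul_sum]
  apply Finsupp.sum_congr
  intro p _
  rw [Finsupp.mul_sum]
  apply Finsupp.sum_congr
  intro q _
  simp [mul_assoc]

theorem B_smul_right (c : ℝ) (s t : ℤ →₀ ℝ) : B r s (c • t) = c * B r s t := by
  unfold B
  rw [Finsupp.mul_sum]
  apply Finsupp.sum_congr
  intro p _
  rw [Finsupp.sum_smul_index' (by intro p; simp), Finsupp.mul_sum]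
  apply Finsupp.sum_congr
  intro q _
  simp only [smul_eq_mul]
  ring

theorem B_symm (he : ∀ n, r (-n) = r n) (s t : ℤ →₀ ℝ) : B r s t = B r t s := by
  unfold B
  rw [Finsupp.sum_comm]
  apply Finsupp.sum_congr
  intro p _
  apply Finsupp.sum_congr
  intro q _
  rw [← he (q - p), neg_sub]
  ring

theorem B_tau_tau (m n : ℤ) (s t : ℤ →₀ ℝ) : B r (tau m s) (tau n t) =
    s.sum fun p a => t.sum fun q b => a * b * r ((m - n) + (p - q)) := by
  unfold B tau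
  rw [Finsupp.sum_mapDomain_index]
  · apply Finsupp.sum_congr
    intro p _
    rw [Finsupp.sum_mapDomain_index]
    · apply Finsupp.sum_congr
      intro q _
      congr 2
      ring
    · intro q; simp
    · intro q a b; ring
  · intro p; simp
  · intro p a b
    rw [← Finsupp.sum_add]
    apply Finsupp.sum_congr
    intro q _
    ring

theorem tau_zero (t : ℤ →₀ ℝ) : tau 0 t = t := by
  unfold tau
  simp only [add_zero]
  exact Finsupp.mapDomain_id

theorem B_tau (n : ℤ) (s t : ℤ →₀ ℝ) : B r (tau n s) (tau n t) = B r s t := by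
  rw [B_tau_tau]
  unfold B
  simp

theorem B_sub_sub (he : ∀ n, r (-n) = r n) (s t : ℤ →₀ ℝ) :
    B r (s - t) (s - t) = B r s s + B r t t - 2 * B r s t := by
  have e : s - t = s + (-1 : ℝ) • t := by simp [sub_eq_add_neg]
  rw [e, B_add_left, B_add_right, B_add_right, B_smul_left, B_smul_left, B_smul_right, B_smul_right,
    B_symm he t s]
  ring

theorem B_add_add (he : ∀ n, r (-n) = r n) (s t : ℤ →₀ ℝ) :
    B r (s + t) (s + t) = B r s s + B r t t + 2 * B r s t := by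
  rw [B_add_left, B_add_right, B_add_right, B_symm he t s]
  ring

/-- `μ` is the Gaussian measure with the covariance function `r`. -/
def IsG (μ : Measure (ℤ → ℝ)) (r : ℤ → ℝ) : Prop :=
  ∀ t : ℤ →₀ ℝ, ∫ ω, ex (L t ω) ∂μ = Complex.exp ((-(B r t t) / 2 : ℝ) : ℂ)

theorem exists_isG (he : ∀ n, r (-n) = r n)
    (hp : ∀ (s : Finset ℤ) (t : ℤ → ℝ), 0 ≤ ∑ p ∈ s, ∑ q ∈ s, t p * t q * r (p - q)) :
    ∃ μ : Measure (ℤ → ℝ), IsProbabilityMeasure μ ∧ IsG μ r := by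
  obtain ⟨μ, h1, h2⟩ := exists_gauss he hp
  refine ⟨μ, h1, fun t => ?_⟩
  exact h2 t.support t

theorem ext_L {P Q : Measure (ℤ → ℝ)} [IsFiniteMeasure P] [IsFiniteMeasure Q]
    (h : ∀ t : ℤ →₀ ℝ, ∫ ω, ex (L t ω) ∂P = ∫ ω, ex (L t ω) ∂Q) : P = Q := by
  apply ext_of_finite_char
  intro s t
  have e : ∀ ω : ℤ → ℝ, ∑ p ∈ s, t p * ω p = L (∑ p ∈ s, Finsupp.single p (t p)) ω := by
    intro ω
    induction s using Finset.induction_on with
    | empty => simp [L_zero]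
    | insert p s hp ih => rw [Finset.sum_insert hp, Finset.sum_insert hp, L_add, L_single, ih]
  simp only [e]
  exact h _

theorem shift_meas : Measurable (shift : (ℤ → ℝ) → (ℤ → ℝ)) := by
  apply measurable_pi_lambda
  intro n
  exact measurable_pi_apply (n + 1)

theorem shift_symm_meas : Measurable (shift.symm : (ℤ → ℝ) → (ℤ → ℝ)) := by
  apply measurable_pi_lambda
  intro n
  exact measurable_pi_apply (n - 1)

theorem shift_zpow_meas (n : ℤ) : Measurable ((shift ^ n : Equiv.Perm (ℤ → ℝ)) : (ℤ → ℝ) → (ℤ → ℝ)) := by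
  apply measurable_pi_lambda
  intro m
  simp only [shift_zpow]
  exact measurable_pi_apply (m + n)

variable {μ : Measure (ℤ → ℝ)}

theorem mp_zpow [IsProbabilityMeasure μ] (hμ : IsG μ r) (n : ℤ) :
    MeasurePreserving ((shift ^ n : Equiv.Perm (ℤ → ℝ)) : (ℤ → ℝ) → (ℤ → ℝ)) μ μ := by
  refine ⟨shift_zpow_meas n, ?_⟩
  haveI : IsProbabilityMeasure (μ.map ((shift ^ n : Equiv.Perm (ℤ → ℝ)) : (ℤ → ℝ) → (ℤ → ℝ))) :=
    Measure.isProbabilityMeasure_map (shift_zpow_meas n).aemeasurable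
  apply ext_L
  intro t
  have h0 : AEStronglyMeasurable (fun ω => ex (L t ω))
      (μ.map ((shift ^ n : Equiv.Perm (ℤ → ℝ)) : (ℤ → ℝ) → (ℤ → ℝ))) :=
    (meas_ex.comp (L_meas t)).aestronglyMeasurable
  rw [integral_map (shift_zpow_meas n).aemeasurable h0]
  simp only [← L_tau]
  rw [hμ, hμ, B_tau]

/-- The space of the finite linear combinations. -/
def H : Submodule ℝ ((ℤ → ℝ) → ℝ) where
  carrier := Set.range L
  add_mem' := by
    rintro _ _ ⟨s, rfl⟩ ⟨t, rfl⟩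
    exact ⟨s + t, funext fun ω => L_add s t ω⟩
  zero_mem' := ⟨0, funext fun ω => L_zero ω⟩
  smul_mem' := by
    rintro c _ ⟨s, rfl⟩
    exact ⟨c • s, funext fun ω => L_smul c s ω⟩

theorem B_nonneg [IsProbabilityMeasure μ] (hμ : IsG μ r) (t : ℤ →₀ ℝ) : 0 ≤ B r t t := by
  have h1 : ‖∫ ω, ex (L t ω) ∂μ‖ ≤ 1 := by
    refine (norm_integral_le_integral_norm _).trans ?_
    simp [norm_ex]
  rw [hμ, Complex.norm_exp_ofReal] at h1
  have := Real.exp_le_one_iff.mp h1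
  linarith

theorem law_L [IsProbabilityMeasure μ] (hμ : IsG μ r) (t : ℤ →₀ ℝ) :
    μ.map (L t) = gaussianReal 0 (B r t t).toNNReal := by
  haveI : IsProbabilityMeasure (μ.map (L t)) :=
    Measure.isProbabilityMeasure_map (L_meas t).aemeasurable
  apply Measure.ext_of_charFun
  funext c
  rw [charFun_apply_real, charFun_gaussianReal, integral_map (L_meas t).aemeasurable]
  swap
  · apply Continuous.aestronglyMeasurable
    fun_prop
  have h1 := hμ (c • t)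
  rw [B_smul_left, B_smul_right] at h1
  have h2 : ∀ ω, Complex.exp ((c : ℂ) * ((L t ω : ℝ) : ℂ) * Complex.I) = ex (L (c • t) ω) := by
    intro ω
    rw [ex, L_smul]
    push_cast
    rfl
  simp only [h2]
  rw [h1]
  congr 1
  have : (((B r t t).toNNReal : ℝ≥0) : ℝ) = B r t t := Real.coe_toNNReal _ (B_nonneg hμ t)
  rw [this]
  push_cast
  ring

theorem gaussSpace [IsProbabilityMeasure μ] (hμ : IsG μ r) : GaussSpace μ H where
  meas := by
    rintro _ ⟨t, rfl⟩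
    exact L_meas t
  law := by
    rintro _ ⟨t, rfl⟩
    exact ⟨_, law_L hμ t⟩

theorem hgen (A : Set (ℤ → ℝ)) (hA : MeasurableSet A) :
    ∃ B, MeasurableSet[sig H] B ∧ A =ᵐ[μ] B := by
  refine ⟨A, ?_, ae_eq_refl _⟩
  have h1 : (MeasurableSpace.pi : MeasurableSpace (ℤ → ℝ)) ≤ sig H := by
    apply iSup_le
    intro p
    refine le_trans ?_ (le_iSup _ (⟨fun ω : ℤ → ℝ => ω p, Finsupp.single p 1, ?_⟩ : H))
    · rfl
    · funext ω
      rw [L_single, one_mul]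
  exact h1 A hA

theorem tendsto_B (hr : Tendsto r cofinite (𝓝 0)) (s t : ℤ →₀ ℝ) :
    Tendsto (fun n : ℤ => B r s (tau n t)) cofinite (𝓝 0) := by
  have h1 : ∀ n : ℤ, B r s (tau n t) = ∑ p ∈ s.support, ∑ q ∈ t.support, s p * t q *
      r ((0 - n) + (p - q)) := by
    intro n
    conv_lhs => rw [← tau_zero s]
    rw [B_tau_tau]
    rfl
  simp only [h1]
  have h2 : (0 : ℝ) = ∑ p ∈ s.support, ∑ q ∈ t.support, s p * t q * 0 := by simp
  rw [h2]
  apply tendsto_finsetSum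
  intro p _
  apply tendsto_finsetSum
  intro q _
  apply Tendsto.const_mul
  apply hr.comp
  apply Function.Injective.tendsto_cofinite
  intro m n h
  simp only at h
  omega

/-- Elementary approximation. -/
theorem tendsto_of_approx {ι : Type*} {l : Filter ι} {u : ι → ℂ} {x : ℂ}
    (h : ∀ ε : ℝ, 0 < ε → ∃ (v : ι → ℂ) (y : ℂ), Tendsto v l (𝓝 y) ∧ (∀ n, ‖u n - v n‖ ≤ ε) ∧
      ‖x - y‖ ≤ ε) : Tendsto u l (𝓝 x) := by
  rw [Metric.tendsto_nhds]
  intro ε hε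
  obtain ⟨v, y, h1, h2, h3⟩ := h (ε / 4) (by positivity)
  filter_upwards [(Metric.tendsto_nhds.mp h1) (ε / 4) (by positivity)] with n hn
  rw [dist_eq_norm] at hn ⊢
  have e : u n - x = (u n - v n) + (v n - y) - (x - y) := by ring
  rw [e]
  calc ‖(u n - v n) + (v n - y) - (x - y)‖ ≤ ‖(u n - v n) + (v n - y)‖ + ‖x - y‖ := norm_sub_le _ _
    _ ≤ ‖u n - v n‖ + ‖v n - y‖ + ‖x - y‖ := by gcongr; exact norm_add_le _ _
    _ < ε := by linarith [h2 n]

/-- Asymptotic independence of two functions. -/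
def Mx (μ : Measure (ℤ → ℝ)) (f g : (ℤ → ℝ) → ℂ) : Prop :=
  Tendsto (fun n : ℤ => ∫ ω, f ω * g ((shift ^ n : Equiv.Perm (ℤ → ℝ)) ω) ∂μ) cofinite
    (𝓝 ((∫ ω, f ω ∂μ) * ∫ ω, g ω ∂μ))

/-- Bounded measurable functions. -/
def Bd (f : (ℤ → ℝ) → ℂ) : Prop := Measurable f ∧ ∃ C : ℝ, ∀ ω, ‖f ω‖ ≤ C

theorem Bd.int [IsProbabilityMeasure μ] {f : (ℤ → ℝ) → ℂ} (hf : Bd f) : Integrable f μ := by
  obtain ⟨h1, C, hC⟩ := hf
  exact Integrable.of_bound h1.aestronglyMeasurable C (Eventually.of_forall hC)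

theorem Bd.mul {f g : (ℤ → ℝ) → ℂ} (hf : Bd f) (hg : Bd g) : Bd fun ω => f ω * g ω := by
  obtain ⟨h1, C, hC⟩ := hf
  obtain ⟨h2, D, hD⟩ := hg
  refine ⟨h1.mul h2, C * D, fun ω => ?_⟩
  rw [norm_mul]
  exact mul_le_mul (hC ω) (hD ω) (norm_nonneg _) ((norm_nonneg _).trans (hC ω))

theorem Bd.comp {f : (ℤ → ℝ) → ℂ} (hf : Bd f) (n : ℤ) :
    Bd fun ω => f ((shift ^ n : Equiv.Perm (ℤ → ℝ)) ω) := by
  obtain ⟨h1, C, hC⟩ := hf
  exact ⟨h1.comp (shift_zpow_meas n), C, fun ω => hC _⟩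

theorem Bd.ex (t : ℤ →₀ ℝ) : Bd fun ω => ex (L t ω) :=
  ⟨meas_ex.comp (L_meas t), 1, fun ω => (norm_ex _).le⟩

theorem EP_Bd {g : (ℤ → ℝ) → ℂ} (hg : g ∈ EP H) : Bd g := by
  refine Submodule.span_induction (p := fun g _ => Bd g) ?_ ?_ ?_ ?_ hg
  · rintro _ ⟨_, ⟨t, rfl⟩, rfl⟩
    exact Bd.ex t
  · exact ⟨measurable_const, 0, fun ω => by simp⟩
  · rintro f g _ _ ⟨h1, C, hC⟩ ⟨h2, D, hD⟩
    exact ⟨h1.add h2, C + D, fun ω => (norm_add_le _ _).trans (add_le_add (hC ω) (hD ω))⟩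
  · rintro c f _ ⟨h1, C, hC⟩
    refine ⟨h1.const_smul c, ‖c‖ * C, fun ω => ?_⟩
    rw [Pi.smul_apply, norm_smul]
    exact mul_le_mul_of_nonneg_left (hC ω) (norm_nonneg _)

theorem Mx_ex [IsProbabilityMeasure μ] (he : ∀ n, r (-n) = r n) (hμ : IsG μ r)
    (hr : Tendsto r cofinite (𝓝 0)) (s t : ℤ →₀ ℝ) :
    Mx μ (fun ω => ex (L s ω)) (fun ω => ex (L t ω)) := by
  unfold Mx
  have h1 : ∀ n : ℤ, ∫ ω, ex (L s ω) * ex (L t ((shift ^ n : Equiv.Perm (ℤ → ℝ)) ω)) ∂μ =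
      Complex.exp ((-(B r s s + B r t t + 2 * B r s (tau n t)) / 2 : ℝ) : ℂ) := by
    intro n
    have : ∀ ω, ex (L s ω) * ex (L t ((shift ^ n : Equiv.Perm (ℤ → ℝ)) ω)) =
        ex (L (s + tau n t) ω) := by
      intro ω
      rw [L_add, ex_add, L_tau]
    simp only [this]
    rw [hμ, B_add_add he, B_tau]
  simp only [h1]
  rw [hμ, hμ, ← Complex.exp_add]
  have h2 := tendsto_B hr s t
  have h3 : Tendsto (fun n : ℤ => ((-(B r s s + B r t t + 2 * B r s (tau n t)) / 2 : ℝ) : ℂ))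
      cofinite (𝓝 (((-(B r s s + B r t t + 2 * 0) / 2 : ℝ) : ℂ))) := by
    apply (Complex.continuous_ofReal.tendsto _).comp
    exact (((h2.const_mul 2).const_add _).neg).div_const 2
  have h4 := (Complex.continuous_exp.tendsto _).comp h3
  have e : (((-(B r s s + B r t t + 2 * 0) / 2 : ℝ) : ℂ)) =
      (((-(B r s s) / 2 : ℝ) : ℂ)) + (((-(B r t t) / 2 : ℝ) : ℂ)) := by
    push_cast
    ring
  rw [e] at h4
  exact h4

theorem Mx_span_left [IsProbabilityMeasure μ] {g : (ℤ → ℝ) → ℂ} (hg : Bd g)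
    (h : ∀ s : ℤ →₀ ℝ, Mx μ (fun ω => ex (L s ω)) g) {f : (ℤ → ℝ) → ℂ} (hf : f ∈ EP H) :
    Mx μ f g := by
  refine Submodule.span_induction (p := fun f _ => Mx μ f g) ?_ ?_ ?_ ?_ hf
  · rintro _ ⟨_, ⟨t, rfl⟩, rfl⟩
    exact h t
  · simp [Mx]
  · intro f₁ f₂ hf₁ hf₂ h₁ h₂
    unfold Mx at *
    have hb₁ := EP_Bd hf₁
    have hb₂ := EP_Bd hf₂
    have e1 : ∀ n : ℤ, ∫ ω, (f₁ + f₂) ω * g ((shift ^ n : Equiv.Perm (ℤ → ℝ)) ω) ∂μ =
        ∫ ω, f₁ ω * g ((shift ^ n : Equiv.Perm (ℤ → ℝ)) ω) ∂μ +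
        ∫ ω, f₂ ω * g ((shift ^ n : Equiv.Perm (ℤ → ℝ)) ω) ∂μ := by
      intro n
      rw [← integral_add (hb₁.mul (hg.comp n)).int (hb₂.mul (hg.comp n)).int]
      congr 1
      funext ω
      simp [add_mul]
    have e2 : ∫ ω, (f₁ + f₂) ω ∂μ = ∫ ω, f₁ ω ∂μ + ∫ ω, f₂ ω ∂μ := by
      rw [← integral_add hb₁.int hb₂.int]
      rfl
    simp only [e1]
    rw [e2, add_mul]
    exact h₁.add h₂
  · intro c f₁ hf₁ h₁
    unfold Mx at *
    have e1 : ∀ n : ℤ, ∫ ω, (c • f₁) ω * g ((shift ^ n : Equiv.Perm (ℤ → ℝ)) ω) ∂μ =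
        c * ∫ ω, f₁ ω * g ((shift ^ n : Equiv.Perm (ℤ → ℝ)) ω) ∂μ := by
      intro n
      rw [← integral_const_mul]
      congr 1
      funext ω
      simp [mul_assoc]
    have e2 : ∫ ω, (c • f₁) ω ∂μ = c * ∫ ω, f₁ ω ∂μ := by
      rw [← integral_const_mul]
      rfl
    simp only [e1]
    rw [e2, mul_assoc]
    exact h₁.const_mul c

theorem Mx_span_right [IsProbabilityMeasure μ] {f : (ℤ → ℝ) → ℂ} (hf : Bd f)
    (h : ∀ s : ℤ →₀ ℝ, Mx μ f (fun ω => ex (L s ω))) {g : (ℤ → ℝ) → ℂ} (hg : g ∈ EP H) :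
    Mx μ f g := by
  refine Submodule.span_induction (p := fun g _ => Mx μ f g) ?_ ?_ ?_ ?_ hg
  · rintro _ ⟨_, ⟨t, rfl⟩, rfl⟩
    exact h t
  · simp [Mx]
  · intro f₁ f₂ hf₁ hf₂ h₁ h₂
    unfold Mx at *
    have hb₁ := EP_Bd hf₁
    have hb₂ := EP_Bd hf₂
    have e1 : ∀ n : ℤ, ∫ ω, f ω * (f₁ + f₂) ((shift ^ n : Equiv.Perm (ℤ → ℝ)) ω) ∂μ =
        ∫ ω, f ω * f₁ ((shift ^ n : Equiv.Perm (ℤ → ℝ)) ω) ∂μ +
        ∫ ω, f ω * f₂ ((shift ^ n : Equiv.Perm (ℤ → ℝ)) ω) ∂μ := by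
      intro n
      rw [← integral_add (hf.mul (hb₁.comp n)).int (hf.mul (hb₂.comp n)).int]
      congr 1
      funext ω
      simp [mul_add]
    have e2 : ∫ ω, (f₁ + f₂) ω ∂μ = ∫ ω, f₁ ω ∂μ + ∫ ω, f₂ ω ∂μ := by
      rw [← integral_add hb₁.int hb₂.int]
      rfl
    simp only [e1]
    rw [e2, mul_add]
    exact h₁.add h₂
  · intro c f₁ hf₁ h₁
    unfold Mx at *
    have e1 : ∀ n : ℤ, ∫ ω, f ω * (c • f₁) ((shift ^ n : Equiv.Perm (ℤ → ℝ)) ω) ∂μ =
        c * ∫ ω, f ω * f₁ ((shift ^ n : Equiv.Perm (ℤ → ℝ)) ω) ∂μ := by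
      intro n
      rw [← integral_const_mul]
      congr 1
      funext ω
      simp only [Pi.smul_apply, smul_eq_mul]
      ring
    have e2 : ∫ ω, (c • f₁) ω ∂μ = c * ∫ ω, f₁ ω ∂μ := by
      rw [← integral_const_mul]
      rfl
    simp only [e1]
    have e3 : (∫ ω, f ω ∂μ) * ∫ ω, (c • f₁) ω ∂μ = c * ((∫ ω, f ω ∂μ) * ∫ ω, f₁ ω ∂μ) := by
      rw [e2]
      ring
    rw [e3]
    exact h₁.const_mul c

theorem int_comp [IsProbabilityMeasure μ] (hμ : IsG μ r) {f : (ℤ → ℝ) → ℝ} (n : ℤ) 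
    (hf : Measurable f) :
    ∫ ω, f ((shift ^ n : Equiv.Perm (ℤ → ℝ)) ω) ∂μ = ∫ ω, f ω ∂μ := by
  have h := mp_zpow hμ n
  conv_rhs => rw [← h.map_eq]
  rw [integral_map h.measurable.aemeasurable hf.aestronglyMeasurable]

/-- Asymptotic independence of bounded functions. -/
theorem Mx_Bd [IsProbabilityMeasure μ] (he : ∀ n, r (-n) = r n) (hμ : IsG μ r)
    (hr : Tendsto r cofinite (𝓝 0)) {f g : (ℤ → ℝ) → ℂ} (hf : Bd f) (hg : Bd g) : Mx μ f g := by
  -- first the case of an exponential polynomial `g`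
  have step : ∀ {f : (ℤ → ℝ) → ℂ}, Bd f → ∀ {g : (ℤ → ℝ) → ℂ}, g ∈ EP H → Mx μ f g := by
    intro f hf g hg
    have hgb := EP_Bd hg
    obtain ⟨hgm, C, hC⟩ := hgb
    have hC0 : 0 ≤ C := (norm_nonneg _).trans (hC 0)
    apply tendsto_of_approx
    intro ε hε
    have hfL : MemLp f 2 μ := by
      obtain ⟨h1, D, hD⟩ := hf
      exact MemLp.of_bound h1.aestronglyMeasurable D (Eventually.of_forall hD)
    obtain ⟨F, hF, hFf⟩ := dense_EP (gaussSpace hμ) hgen hfL (ε := ε / (C + 1)) (by positivity)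
    have hFb := EP_Bd hF
    have hmx : Mx μ F g := by
      apply Mx_span_left ⟨hgm, C, hC⟩ _ hF
      intro s
      exact Mx_span_right (Bd.ex s) (fun t => Mx_ex he hμ hr s t) hg
    have hle : (C : ℝ) * (ε / (C + 1)) ≤ ε := by
      rw [← mul_div_assoc, div_le_iff₀ (by positivity)]
      nlinarith
    have hgen' : ∀ (G : (ℤ → ℝ) → ℂ), Bd G → (∀ ω, ‖G ω‖ ≤ C) →
        ‖∫ ω, f ω * G ω ∂μ - ∫ ω, F ω * G ω ∂μ‖ ≤ ε := by
      intro G hG hGC
      rw [← integral_sub (hf.mul hG).int (hFb.mul hG).int]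
      calc ‖∫ ω, (f ω * G ω - F ω * G ω) ∂μ‖ ≤ ∫ ω, ‖f ω * G ω - F ω * G ω‖ ∂μ :=
            norm_integral_le_integral_norm _
        _ ≤ ∫ ω, C * ‖f ω - F ω‖ ∂μ := by
            apply integral_mono
            · exact ((hf.mul hG).int.sub (hFb.mul hG).int).norm
            · exact ((hf.int.sub hFb.int).norm).const_mul C
            · intro ω
              simp only
              rw [← sub_mul, norm_mul, mul_comm]
              exact mul_le_mul_of_nonneg_right (hGC ω) (norm_nonneg _)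
        _ = C * ∫ ω, ‖f ω - F ω‖ ∂μ := integral_const_mul _ _
        _ ≤ C * (ε / (C + 1)) := mul_le_mul_of_nonneg_left hFf hC0
        _ ≤ ε := hle
    refine ⟨_, _, hmx, ?_, ?_⟩
    · intro n
      exact hgen' (fun ω => g ((shift ^ n : Equiv.Perm (ℤ → ℝ)) ω)) (Bd.comp ⟨hgm, C, hC⟩ n)
        (fun ω => hC _)
    · have hc : ‖∫ ω, g ω ∂μ‖ ≤ C := by
        refine (norm_integral_le_integral_norm _).trans ?_
        calc ∫ ω, ‖g ω‖ ∂μ ≤ ∫ _ω, C ∂μ := by
              apply integral_mono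
              · exact (Bd.int ⟨hgm, C, hC⟩).norm
              · exact integrable_const _
              · exact hC
          _ = C := by simp
      have := hgen' (fun _ => ∫ ω, g ω ∂μ) ⟨measurable_const, _, fun _ => le_rfl⟩ (fun _ => hc)
      rw [integral_mul_const, integral_mul_const] at this
      exact this
  obtain ⟨hfm, C, hC⟩ := hf
  have hC0 : 0 ≤ C := (norm_nonneg _).trans (hC 0)
  have hfb : Bd f := ⟨hfm, C, hC⟩
  apply tendsto_of_approx
  intro ε hε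
  have hgL : MemLp g 2 μ := by
    obtain ⟨h1, D, hD⟩ := hg
    exact MemLp.of_bound h1.aestronglyMeasurable D (Eventually.of_forall hD)
  obtain ⟨G, hG, hGg⟩ := dense_EP (gaussSpace hμ) hgen hgL (ε := ε / (C + 1)) (by positivity)
  have hGb := EP_Bd hG
  have hle : (C : ℝ) * (ε / (C + 1)) ≤ ε := by
    rw [← mul_div_assoc, div_le_iff₀ (by positivity)]
    nlinarith
  refine ⟨_, _, step hfb hG, ?_, ?_⟩
  · intro n
    rw [← integral_sub (hfb.mul (hg.comp n)).int (hfb.mul (hGb.comp n)).int]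
    calc ‖∫ ω, (f ω * g ((shift ^ n : Equiv.Perm (ℤ → ℝ)) ω) -
            f ω * G ((shift ^ n : Equiv.Perm (ℤ → ℝ)) ω)) ∂μ‖
        ≤ ∫ ω, ‖f ω * g ((shift ^ n : Equiv.Perm (ℤ → ℝ)) ω) -
            f ω * G ((shift ^ n : Equiv.Perm (ℤ → ℝ)) ω)‖ ∂μ := norm_integral_le_integral_norm _
      _ ≤ ∫ ω, C * ‖g ((shift ^ n : Equiv.Perm (ℤ → ℝ)) ω) -
            G ((shift ^ n : Equiv.Perm (ℤ → ℝ)) ω)‖ ∂μ := by
          apply integral_mono
          · exact ((hfb.mul (hg.comp n)).int.sub (hfb.mul (hGb.comp n)).int).norm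
          · exact (((hg.comp n).int.sub (hGb.comp n).int).norm).const_mul C
          · intro ω
            simp only
            rw [← mul_sub, norm_mul]
            exact mul_le_mul_of_nonneg_right (hC ω) (norm_nonneg _)
      _ = C * ∫ ω, ‖g ((shift ^ n : Equiv.Perm (ℤ → ℝ)) ω) -
            G ((shift ^ n : Equiv.Perm (ℤ → ℝ)) ω)‖ ∂μ := integral_const_mul _ _
      _ = C * ∫ ω, ‖g ω - G ω‖ ∂μ := by
          rw [int_comp hμ (f := fun ω => ‖g ω - G ω‖) n (hg.1.sub hGb.1).norm]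
      _ ≤ C * (ε / (C + 1)) := mul_le_mul_of_nonneg_left hGg hC0
      _ ≤ ε := hle
  · rw [← mul_sub, norm_mul, ← integral_sub hg.int hGb.int]
    have hc : ‖∫ ω, f ω ∂μ‖ ≤ C := by
      refine (norm_integral_le_integral_norm _).trans ?_
      calc ∫ ω, ‖f ω‖ ∂μ ≤ ∫ _ω, C ∂μ := by
            apply integral_mono
            · exact hfb.int.norm
            · exact integrable_const _
            · exact hC
        _ = C := by simp
    calc ‖∫ ω, f ω ∂μ‖ * ‖∫ ω, (g ω - G ω) ∂μ‖ ≤ C * (ε / (C + 1)) := by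
          apply mul_le_mul hc _ (norm_nonneg _) hC0
          exact (norm_integral_le_integral_norm _).trans hGg
      _ ≤ ε := hle

/-- The system is mixing. -/
theorem mixing [IsProbabilityMeasure μ] (he : ∀ n, r (-n) = r n) (hμ : IsG μ r)
    (hr : Tendsto r cofinite (𝓝 0)) {A B : Set (ℤ → ℝ)} (hA : MeasurableSet A)
    (hB : MeasurableSet B) :
    Tendsto (fun n : ℤ => μ.real (A ∩ (shift ^ n : Equiv.Perm (ℤ → ℝ)) '' B)) cofinite
      (𝓝 (μ.real A * μ.real B)) := by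
  have hb : ∀ {A : Set (ℤ → ℝ)}, MeasurableSet A → Bd (A.indicator fun _ => (1 : ℂ)) := by
    intro A hA
    refine ⟨measurable_const.indicator hA, 1, fun ω => ?_⟩
    by_cases h : ω ∈ A
    · simp [h]
    · simp [h]
  have h1 := Mx_Bd he hμ hr (hb hA) (hb hB)
  unfold Mx at h1
  have h2 : ∀ {A : Set (ℤ → ℝ)}, MeasurableSet A →
      ∫ ω, (A.indicator fun _ => (1 : ℂ)) ω ∂μ = ((μ.real A : ℝ) : ℂ) := by
    intro A hA
    rw [integral_indicator hA, setIntegral_const]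
    simp
  have h3 : ∀ n : ℤ, ∫ ω, (A.indicator fun _ => (1 : ℂ)) ω *
      (B.indicator fun _ => (1 : ℂ)) ((shift ^ (-n) : Equiv.Perm (ℤ → ℝ)) ω) ∂μ =
      ((μ.real (A ∩ (shift ^ n : Equiv.Perm (ℤ → ℝ)) '' B) : ℝ) : ℂ) := by
    intro n
    have hm : MeasurableSet ((shift ^ n : Equiv.Perm (ℤ → ℝ)) '' B) := by
      rw [Equiv.image_eq_preimage_symm]
      have : ((shift ^ n : Equiv.Perm (ℤ → ℝ)).symm : (ℤ → ℝ) → (ℤ → ℝ)) =
          (shift ^ (-n) : Equiv.Perm (ℤ → ℝ)) := by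
        rw [zpow_neg]
        rfl
      rw [this]
      exact shift_zpow_meas _ hB
    rw [← h2 (hA.inter hm)]
    congr 1
    funext ω
    have hmem : ω ∈ (shift ^ n : Equiv.Perm (ℤ → ℝ)) '' B ↔
        (shift ^ (-n) : Equiv.Perm (ℤ → ℝ)) ω ∈ B := by
      rw [zpow_neg]
      exact Set.mem_image_equiv
    classical
    simp only [Set.indicator_apply, Set.mem_inter_iff, hmem]
    by_cases ha : ω ∈ A <;> by_cases hb' : (shift ^ (-n) : Equiv.Perm (ℤ → ℝ)) ω ∈ B <;>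
      simp [ha, hb']
  have hneg : Tendsto (fun n : ℤ => -n) cofinite cofinite :=
    neg_injective.tendsto_cofinite
  have h4 := h1.comp hneg
  rw [h2 hA, h2 hB] at h4
  have h5 : Tendsto (fun n : ℤ => ((μ.real (A ∩ (shift ^ n : Equiv.Perm (ℤ → ℝ)) '' B) : ℝ) : ℂ))
      cofinite (𝓝 (((μ.real A * μ.real B : ℝ)) : ℂ)) := by
    push_cast
    refine h4.congr fun n => ?_
    simp only [Function.comp_apply]
    rw [h3]
  have h6 := (Complex.continuous_re.tendsto _).comp h5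
  refine h6.congr fun n => ?_
  rw [Function.comp_apply, Complex.ofReal_re]

end Pool.Agent.V1191.GR
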