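import Mathlib

/-!
# The Fourier coefficients of a Riesz product over the powers of three
-/

set_option autoImplicit false

open Filter Topology MeasureTheory

noncomputable section

namespace Pool.Agent.V1191.GR

/-- The coefficients of the Riesz product. -/
def a (k : ℕ) : ℝ := 1 / (2 + Real.log (k + 1))

theorem log_nonneg' (k : ℕ) : 0 ≤ Real.log ((k : ℝ) + 1) :=
  Real.log_nonneg (by have : (0 : ℝ) ≤ k := k.cast_nonneg; linarith)

theorem a_pos (k : ℕ) : 0 < a k := by
  unfold a
  have := log_nonneg' k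
  positivity

theorem a_le (k : ℕ) : a k ≤ 1 / 2 := by
  unfold a
  have := log_nonneg' k
  apply one_div_le_one_div_of_le (by norm_num)
  linarith

theorem a_anti {j k : ℕ} (h : j ≤ k) : a k ≤ a j := by
  unfold a
  have h1 := log_nonneg' j
  have h2 : Real.log ((j : ℝ) + 1) ≤ Real.log ((k : ℝ) + 1) := by
    apply Real.log_le_log (by positivity)
    have : (j : ℝ) ≤ k := by exact_mod_cast h
    linarith
  apply one_div_le_one_div_of_le (by linarith)
  linarith

theorem a_tendsto : Tendsto a atTop (𝓝 0) := by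
  have h1 : Tendsto (fun k : ℕ => 2 + Real.log ((k : ℝ) + 1)) atTop atTop := by
    apply tendsto_atTop_add_const_left
    apply Real.tendsto_log_atTop.comp
    exact tendsto_atTop_add_const_right _ _ tendsto_natCast_atTop_atTop
  have h2 := h1.inv_tendsto_atTop
  refine h2.congr fun k => ?_
  simp [a]

theorem a_not_summable (c : ℝ) (hc : 0 < c) (m : ℕ) : ¬ Summable fun k : ℕ => c * a k ^ m := by
  intro hs
  have h0 : Summable fun k : ℕ => a k ^ m := by
    have := hs.mul_left c⁻¹
    refine this.congr fun k => ?_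
    field_simp
  apply Real.not_summable_one_div_natCast
  have hO : (fun x : ℝ => (2 + Real.log (x + 1)) ^ m) =O[atTop] (fun x : ℝ => x) := by
    have h1 : (fun x : ℝ => 2 + Real.log (x + 1)) =O[atTop] (fun x : ℝ => Real.log (x + 1)) := by
      apply Asymptotics.IsBigO.add _ (Asymptotics.isBigO_refl _ _)
      have h2 : Tendsto (fun x : ℝ => Real.log (x + 1)) atTop atTop :=
        Real.tendsto_log_atTop.comp (tendsto_atTop_add_const_right _ _ tendsto_id)
      apply Asymptotics.IsBigO.of_bound 2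
      filter_upwards [h2.eventually_ge_atTop 1] with x hx
      rw [Real.norm_of_nonneg (by norm_num), Real.norm_of_nonneg (by linarith)]
      linarith
    have h3 : (fun x : ℝ => Real.log x ^ m) =o[atTop] (fun x : ℝ => x) :=
      Real.isLittleO_pow_log_id_atTop
    have h4 : (fun x : ℝ => Real.log (x + 1) ^ m) =o[atTop] (fun x : ℝ => x + 1) :=
      h3.comp_tendsto (tendsto_atTop_add_const_right _ _ tendsto_id)
    have h5 : (fun x : ℝ => x + 1) =O[atTop] (fun x : ℝ => x) := by
      apply Asymptotics.IsBigO.of_bound 2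
      filter_upwards [eventually_ge_atTop 1] with x hx
      rw [Real.norm_of_nonneg (by linarith), Real.norm_of_nonneg (by linarith)]
      linarith
    exact (h1.pow m).trans (h4.isBigO.trans h5)
  have hO2 : (fun k : ℕ => (2 + Real.log ((k : ℝ) + 1)) ^ m) =O[atTop] (fun k : ℕ => (k : ℝ)) :=
    hO.comp_tendsto tendsto_natCast_atTop_atTop
  refine summable_of_isBigO_nat h0 ?_
  have h6 := hO2.inv_rev (by
    filter_upwards [eventually_gt_atTop 0] with k hk hk0
    exfalso
    have := log_nonneg' k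
    have : (0 : ℝ) < (2 + Real.log ((k : ℝ) + 1)) ^ m := by positivity
    linarith)
  refine (h6.congr' ?_ ?_)
  · filter_upwards with k
    simp
  · filter_upwards with k
    simp [a]

/-- The density of the partial Riesz product. -/
def dens (K : ℕ) (x : ℝ) : ℝ := ∏ k ∈ Finset.range K, (1 + a k * Real.cos ((3 : ℝ) ^ k * x))

theorem dens_nonneg (K : ℕ) (x : ℝ) : 0 ≤ dens K x := by
  apply Finset.prod_nonneg
  intro k _
  have h1 := a_pos k
  have h2 := a_le k
  have h3 := Real.neg_one_le_cos ((3 : ℝ) ^ k * x)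
  nlinarith

theorem dens_cont (K : ℕ) : Continuous (dens K) := by
  unfold dens
  fun_prop

/-- The Fourier coefficients of the partial Riesz product. -/
def rK (K : ℕ) (n : ℤ) : ℝ := (2 * Real.pi)⁻¹ * ∫ x in (0 : ℝ)..(2 * Real.pi), dens K x * Real.cos (n * x)

theorem rK_zero (n : ℤ) : rK 0 n = if n = 0 then 1 else 0 := by
  unfold rK dens
  split_ifs with h
  · subst h
    simp
    field_simp
  · have hn : (n : ℝ) ≠ 0 := by exact_mod_cast h
    simp only [Finset.range_zero, Finset.prod_empty, one_mul]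
    rw [intervalIntegral.integral_comp_mul_left (fun y => Real.cos y) hn, integral_cos]
    have : Real.sin (n * (2 * Real.pi)) = 0 := by
      have := Real.sin_int_mul_pi (2 * n)
      push_cast at this
      rw [← this]
      congr 1
      ring
    rw [this]
    simp

theorem rK_succ (K : ℕ) (n : ℤ) :
    rK (K + 1) n = rK K n + a K / 2 * (rK K (n - 3 ^ K) + rK K (n + 3 ^ K)) := by
  unfold rK
  have hi : ∀ m : ℤ, IntervalIntegrable (fun x => dens K x * Real.cos (m * x)) volume 0 (2 * Real.pi) := by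
    intro m
    apply Continuous.intervalIntegrable
    have := dens_cont K
    fun_prop
  have h1 : ∀ x, dens (K + 1) x * Real.cos (n * x) = dens K x * Real.cos (n * x) +
      a K / 2 * (dens K x * Real.cos (((n - 3 ^ K : ℤ) : ℝ) * x) +
        dens K x * Real.cos (((n + 3 ^ K : ℤ) : ℝ) * x)) := by
    intro x
    have e1 : ((n - 3 ^ K : ℤ) : ℝ) * x = n * x - 3 ^ K * x := by push_cast; ring
    have e2 : ((n + 3 ^ K : ℤ) : ℝ) * x = n * x + 3 ^ K * x := by push_cast; ring
    have e3 : dens (K + 1) x = dens K x * (1 + a K * Real.cos ((3 : ℝ) ^ K * x)) := by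
      unfold dens
      rw [Finset.prod_range_succ]
    rw [e1, e2, e3, Real.cos_sub, Real.cos_add]
    ring
  simp only [h1]
  rw [intervalIntegral.integral_add (hi n) (((hi _).add (hi _)).const_mul _),
    intervalIntegral.integral_const_mul, intervalIntegral.integral_add (hi _) (hi _)]
  ring

theorem rK_even (K : ℕ) (n : ℤ) : rK K (-n) = rK K n := by
  unfold rK
  congr 1
  apply intervalIntegral.integral_congr
  intro x _
  simp only
  congr 1
  push_cast
  rw [neg_mul, Real.cos_neg]

theorem rK_supp (K : ℕ) : ∀ n : ℤ, (3 : ℤ) ^ K ≤ 2 * |n| → rK K n = 0 := by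
  induction K with
  | zero =>
    intro n hn
    rw [rK_zero, if_neg]
    rintro rfl
    simp at hn
  | succ K ih =>
    intro n hn
    have h3 : (3 : ℤ) ^ (K + 1) = 3 * 3 ^ K := by ring
    have hp : (0 : ℤ) < 3 ^ K := by positivity
    rw [rK_succ, ih n (by omega), ih (n - 3 ^ K), ih (n + 3 ^ K)]
    · ring
    · rcases abs_cases n with h | h <;> rcases abs_cases (n + 3 ^ K) with h' | h' <;> omega
    · rcases abs_cases n with h | h <;> rcases abs_cases (n - 3 ^ K) with h' | h' <;> omega

theorem rK_stable (K : ℕ) (n : ℤ) (h : 2 * |n| < (3 : ℤ) ^ K) : rK (K + 1) n = rK K n := by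
  rw [rK_succ, rK_supp K (n - 3 ^ K), rK_supp K (n + 3 ^ K)]
  · ring
  · rcases abs_cases n with h | h <;> rcases abs_cases (n + 3 ^ K) with h' | h' <;> omega
  · rcases abs_cases n with h | h <;> rcases abs_cases (n - 3 ^ K) with h' | h' <;> omega

theorem rK_stable' {K L : ℕ} (hKL : K ≤ L) (n : ℤ) (h : 2 * |n| < (3 : ℤ) ^ K) :
    rK L n = rK K n := by
  induction L, hKL using Nat.le_induction with
  | base => rfl
  | succ L hL ih =>
    rw [rK_stable L n, ih]
    have : (3 : ℤ) ^ K ≤ 3 ^ L := pow_le_pow_right₀ (by norm_num) hL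
    omega

theorem lt_pow (m : ℕ) : 2 * (m : ℤ) < 3 ^ m := by
  induction m with
  | zero => simp
  | succ m ih =>
    have : (3 : ℤ) ^ (m + 1) = 3 * 3 ^ m := by ring
    have h1 : (1 : ℤ) ≤ 3 ^ m := one_le_pow₀ (by norm_num)
    push_cast
    omega

theorem odd_pow3 (m : ℕ) : (3 : ℤ) ^ m % 2 = 1 := Int.odd_iff.mp (Odd.pow (by decide))

/-- The Fourier coefficients of the Riesz product. -/
def r (n : ℤ) : ℝ := rK n.natAbs n

theorem r_eq {K : ℕ} {n : ℤ} (h : 2 * |n| < (3 : ℤ) ^ K) : rK K n = r n := by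
  unfold r
  have h1 : 2 * |n| < (3 : ℤ) ^ n.natAbs := by
    have := lt_pow n.natAbs
    rwa [Int.natCast_natAbs] at this
  rcases le_total K n.natAbs with h2 | h2
  · exact (rK_stable' h2 n h).symm
  · exact rK_stable' h2 n h1

theorem r_even (n : ℤ) : r (-n) = r n := by
  unfold r
  rw [Int.natAbs_neg, rK_even]

theorem r_zero : r 0 = 1 := by
  unfold r
  simp [rK_zero]

/-- The multiplicativity. -/
theorem r_top {k : ℕ} {l : ℤ} (h : 2 * |l| < (3 : ℤ) ^ k) : r (3 ^ k + l) = a k / 2 * r l := by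
  have h3 : (3 : ℤ) ^ (k + 1) = 3 * 3 ^ k := by ring
  have h1 : 2 * |3 ^ k + l| < (3 : ℤ) ^ (k + 1) := by
    rcases abs_cases l with h | h <;> rcases abs_cases (3 ^ k + l) with h' | h' <;> omega
  rw [← r_eq h1, rK_succ, rK_supp k (3 ^ k + l), rK_supp k (3 ^ k + l + 3 ^ k)]
  · have e : (3 : ℤ) ^ k + l - 3 ^ k = l := by ring
    rw [e, r_eq h]
    ring
  · rcases abs_cases l with h | h <;> rcases abs_cases (3 ^ k + l + 3 ^ k) with h' | h' <;> omega
  · rcases abs_cases l with h | h <;> rcases abs_cases (3 ^ k + l) with h' | h' <;> omega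

theorem r_bot {k : ℕ} {l : ℤ} (h : 2 * |l| < (3 : ℤ) ^ k) : r (-3 ^ k + l) = a k / 2 * r l := by
  have h1 : r (3 ^ k + -l) = a k / 2 * r (-l) := r_top (by rwa [abs_neg])
  rw [r_even] at h1
  rw [← h1, ← r_even]
  congr 1
  ring

theorem r_diff {j k : ℕ} (hjk : j < k) {l : ℤ} (h : 2 * |l| < (3 : ℤ) ^ j) :
    r (3 ^ k - 3 ^ j + l) = a k / 2 * (a j / 2) * r l := by
  have h3 : (3 : ℤ) ^ (j + 1) = 3 * 3 ^ j := by ring
  have h4 : (3 : ℤ) ^ (j + 1) ≤ 3 ^ k := pow_le_pow_right₀ (by norm_num) hjk
  have h5 : 2 * |-3 ^ j + l| < (3 : ℤ) ^ k := by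
    rcases abs_cases l with h | h <;> rcases abs_cases (-3 ^ j + l) with h' | h' <;> omega
  have e : (3 : ℤ) ^ k - 3 ^ j + l = 3 ^ k + (-3 ^ j + l) := by ring
  rw [e, r_top h5, r_bot h]
  ring

theorem r_le_one : ∀ (J : ℕ) (n : ℤ), 2 * |n| < (3 : ℤ) ^ J → |r n| ≤ 1 := by
  intro J
  induction J with
  | zero =>
    intro n hn
    have : n = 0 := by
      rcases abs_cases n with h | h <;> omega
    subst this
    rw [r_zero]
    simp
  | succ J ih =>
    intro n hn
    by_cases h1 : 2 * |n| < (3 : ℤ) ^ J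
    · exact ih n h1
    · have h3 : (3 : ℤ) ^ (J + 1) = 3 * 3 ^ J := by ring
      have ha := a_le J
      have ha' := a_pos J
      have hodd := odd_pow3 J
      rcases le_or_gt 0 n with hn0 | hn0
      · have h2 : 2 * |n - 3 ^ J| < (3 : ℤ) ^ J := by
          rcases abs_cases n with h | h <;> rcases abs_cases (n - 3 ^ J) with h' | h' <;> omega
        have h4 := r_top h2
        have e : (3 : ℤ) ^ J + (n - 3 ^ J) = n := by ring
        rw [e] at h4
        rw [h4, abs_mul, abs_of_pos (by linarith)]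
        have := ih _ h2
        nlinarith [abs_nonneg (r (n - 3 ^ J))]
      · have h2 : 2 * |n + 3 ^ J| < (3 : ℤ) ^ J := by
          rcases abs_cases n with h | h <;> rcases abs_cases (n + 3 ^ J) with h' | h' <;> omega
        have h4 := r_bot h2
        have e : -(3 : ℤ) ^ J + (n + 3 ^ J) = n := by ring
        rw [e] at h4
        rw [h4, abs_mul, abs_of_pos (by linarith)]
        have := ih _ h2
        nlinarith [abs_nonneg (r (n + 3 ^ J))]

theorem r_small (K : ℕ) : ∀ J : ℕ, ∀ n : ℤ, (3 : ℤ) ^ K ≤ 2 * |n| → 2 * |n| < (3 : ℤ) ^ J →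
    |r n| ≤ a K := by
  intro J
  induction J with
  | zero =>
    intro n hn hn'
    have : (1 : ℤ) ≤ 3 ^ K := one_le_pow₀ (by norm_num)
    rcases abs_cases n with h | h <;> omega
  | succ J ih =>
    intro n hn0 hn
    by_cases h1 : 2 * |n| < (3 : ℤ) ^ J
    · exact ih n hn0 h1
    · have h3 : (3 : ℤ) ^ (J + 1) = 3 * 3 ^ J := by ring
      have hKJ : K ≤ J := by
        by_contra hc
        have : (3 : ℤ) ^ (J + 1) ≤ 3 ^ K := pow_le_pow_right₀ (by norm_num) (by omega)
        omega
      have ha := a_anti hKJ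
      have ha' := a_pos J
      have hodd := odd_pow3 J
      rcases le_or_gt 0 n with hn0 | hn0
      · have h2 : 2 * |n - 3 ^ J| < (3 : ℤ) ^ J := by
          rcases abs_cases n with h | h <;> rcases abs_cases (n - 3 ^ J) with h' | h' <;> omega
        have h4 := r_top h2
        have e : (3 : ℤ) ^ J + (n - 3 ^ J) = n := by ring
        rw [e] at h4
        rw [h4, abs_mul, abs_of_pos (by linarith)]
        have := r_le_one J _ h2
        nlinarith [abs_nonneg (r (n - 3 ^ J))]
      · have h2 : 2 * |n + 3 ^ J| < (3 : ℤ) ^ J := by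
          rcases abs_cases n with h | h <;> rcases abs_cases (n + 3 ^ J) with h' | h' <;> omega
        have h4 := r_bot h2
        have e : -(3 : ℤ) ^ J + (n + 3 ^ J) = n := by ring
        rw [e] at h4
        rw [h4, abs_mul, abs_of_pos (by linarith)]
        have := r_le_one J _ h2
        nlinarith [abs_nonneg (r (n + 3 ^ J))]

/-- The coefficients tend to zero. -/
theorem r_tendsto : Tendsto r cofinite (𝓝 0) := by
  rw [Metric.tendsto_nhds]
  intro ε hε
  obtain ⟨K, hK⟩ := (a_tendsto.eventually (gt_mem_nhds hε)).exists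
  rw [Filter.eventually_cofinite]
  apply (Set.finite_Icc (-(3 : ℤ) ^ K) (3 ^ K)).subset
  intro n hn
  simp only [Set.mem_ofPred_eq] at hn
  by_contra hc
  apply hn
  rw [Set.mem_Icc, not_and_or] at hc
  have h1 : (3 : ℤ) ^ K ≤ 2 * |n| := by
    have : (0 : ℤ) < 3 ^ K := by positivity
    rcases abs_cases n with h | h <;> omega
  have h2 := r_small K n.natAbs n h1 (by
    have := lt_pow n.natAbs
    rwa [Int.natCast_natAbs] at this)
  rw [Real.dist_eq, sub_zero]
  linarith

/-- The positive semidefiniteness. -/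
theorem r_psd (s : Finset ℤ) (t : ℤ → ℝ) : 0 ≤ ∑ p ∈ s, ∑ q ∈ s, t p * t q * r (p - q) := by
  obtain ⟨K, hK⟩ : ∃ K : ℕ, ∀ p ∈ s, ∀ q ∈ s, 2 * |p - q| < (3 : ℤ) ^ K := by
    refine ⟨∑ p ∈ s, ∑ q ∈ s, (p - q).natAbs, ?_⟩
    intro p hp q hq
    have h1 : (p - q).natAbs ≤ ∑ p ∈ s, ∑ q ∈ s, (p - q).natAbs := by
      calc (p - q).natAbs ≤ ∑ q ∈ s, (p - q).natAbs :=
            Finset.single_le_sum (f := fun q => (p - q).natAbs) (fun _ _ => Nat.zero_le _) hq
        _ ≤ _ := Finset.single_le_sum (f := fun p => ∑ q ∈ s, (p - q).natAbs)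
            (fun _ _ => Nat.zero_le _) hp
    have h2 := lt_pow (p - q).natAbs
    rw [Int.natCast_natAbs] at h2
    have h3 : (3 : ℤ) ^ (p - q).natAbs ≤ 3 ^ (∑ p ∈ s, ∑ q ∈ s, (p - q).natAbs) :=
      pow_le_pow_right₀ (by norm_num) h1
    omega
  have h1 : ∑ p ∈ s, ∑ q ∈ s, t p * t q * r (p - q) =
      (2 * Real.pi)⁻¹ * ∫ x in (0 : ℝ)..(2 * Real.pi), dens K x *
        ((∑ p ∈ s, t p * Real.cos (p * x)) ^ 2 + (∑ p ∈ s, t p * Real.sin (p * x)) ^ 2) := by
    have e : ∀ x : ℝ, dens K x *
        ((∑ p ∈ s, t p * Real.cos (p * x)) ^ 2 + (∑ p ∈ s, t p * Real.sin (p * x)) ^ 2) =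
        ∑ p ∈ s, ∑ q ∈ s, t p * t q * (dens K x * Real.cos (((p - q : ℤ) : ℝ) * x)) := by
      intro x
      rw [pow_two, pow_two, Finset.sum_mul_sum, Finset.sum_mul_sum, ← Finset.sum_add_distrib,
        Finset.mul_sum]
      apply Finset.sum_congr rfl
      intro p _
      rw [← Finset.sum_add_distrib, Finset.mul_sum]
      apply Finset.sum_congr rfl
      intro q _
      have : ((p - q : ℤ) : ℝ) * x = p * x - q * x := by push_cast; ring
      rw [this, Real.cos_sub]
      ring
    simp only [e]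
    have hi : ∀ m : ℤ, IntervalIntegrable (fun x => dens K x * Real.cos (m * x)) volume 0
        (2 * Real.pi) := by
      intro m
      apply Continuous.intervalIntegrable
      have := dens_cont K
      fun_prop
    rw [intervalIntegral.integral_finsetSum]
    · rw [Finset.mul_sum]
      apply Finset.sum_congr rfl
      intro p hp
      rw [intervalIntegral.integral_finsetSum]
      · rw [Finset.mul_sum]
        apply Finset.sum_congr rfl
        intro q hq
        rw [intervalIntegral.integral_const_mul, ← r_eq (hK p hp q hq), rK]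
        ring
      · intro q _
        exact (hi _).const_mul _
    · intro p _
      apply Continuous.intervalIntegrable
      have := dens_cont K
      fun_prop
  rw [h1]
  apply mul_nonneg (by positivity)
  apply intervalIntegral.integral_nonneg (by positivity)
  intro x _
  apply mul_nonneg (dens_nonneg K x)
  positivity

end Pool.Agent.V1191.GR
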